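import Pool.Agent.N685.FT.Main1
import Pool.Agent.Y966.LD.Main4b

/-! Project FT: the number of the odd integers up to `x` of given height, for heights up to the mean
(compare `Pool/Agent/Y966/LD/Main4.lean`, `Main4b.lean`). -/

set_option autoImplicit false
set_option linter.unusedVariables false

namespace Pool.Agent.N685.FT

open Finset Filter Topology Pool.Agent.H395R2.G3 Pool.Agent.Y966.LD

theorem ht_upper_core (hG : S_GEN) {z : ℝ} (h0 : 1 / 2 < z) (h1 : z < 1) {ε : ℝ} (hε : 0 < ε) :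
    ∃ X₀ : ℝ, 1 < X₀ ∧ ∀ x : ℝ, X₀ ≤ x → ∀ k : ℕ, (k : ℝ) ≤ 4 * Real.log x →
      ((HS x k).ncard : ℝ) ≤ Real.exp (Real.log x * (uu (k / Real.log x) z + ε)) := by
  have hl2 : 0 < Real.log 2 := Real.log_pos (by norm_num)
  have hl3 : 0 < Real.log 3 := Real.log_pos (by norm_num)
  have hl23 : Real.log 2 < Real.log 3 := Real.log_lt_log (by norm_num) (by norm_num)
  obtain ⟨ha, hab⟩ := tilt_facts h0 h1
  set W : ℝ := (5 + 4 * Real.log 3) / Real.log 2 with hW
  have hW0 : 0 < W := by positivity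
  obtain ⟨C, hC, hup⟩ := lv_upper hG h0 h1 (show 0 < ε / (4 * W) by positivity)
  set A : ℝ := -Real.log z / Real.log 2 with hA
  have hA0 : 0 < A := by positivity
  obtain ⟨K₁, hK₁0, hK₁⟩ := log_lin (show 0 < ε / (16 * A) by positivity)
  obtain ⟨K₂, hK₂0, hK₂⟩ := log_lin (show 0 < ε / (4 * W) by positivity)
  set L₀ : ℝ := max 1 (4 * (A * K₁ + K₂ + |Real.log C| + Real.log 2) / ε) with hL₀
  refine ⟨Real.exp L₀, ?_, fun x hx k hk => ?_⟩
  · have : 1 ≤ L₀ := le_max_left _ _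
    have h2 := Real.add_one_le_exp L₀
    linarith
  have hx0 : 0 < x := lt_of_lt_of_le (Real.exp_pos _) hx
  have hL : L₀ ≤ Real.log x := by
    rw [Real.le_log_iff_exp_le hx0]
    exact hx
  set L : ℝ := Real.log x with hLdef
  have hL1 : 1 ≤ L := (le_max_left _ _).trans hL
  have hL2 : 4 * (A * K₁ + K₂ + |Real.log C| + Real.log 2) / ε ≤ L := (le_max_right _ _).trans hL
  have hkn : (0 : ℝ) ≤ k := Nat.cast_nonneg k
  set a : ℝ := -Real.log z with hadef
  set b : ℝ := -Real.log (3 * (1 - z) / z) with hbdef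
  -- the number of steps
  set Sr : ℝ := (L + k * Real.log 3 + Real.log (k + 1)) / Real.log 2 with hSr
  have hlogk : 0 ≤ Real.log ((k : ℝ) + 1) := Real.log_nonneg (by linarith)
  have hlogk2 : Real.log ((k : ℝ) + 1) ≤ Real.log (4 * L + 1) :=
    Real.log_le_log (by positivity) (by linarith)
  have hlogL : Real.log (4 * L + 1) ≤ 4 * L := by
    have := Real.log_le_sub_one_of_pos (show 0 < 4 * L + 1 by linarith)
    linarith
  have hSr0 : 0 ≤ Sr := by positivity
  have hSrW : Sr ≤ W * L := by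
    rw [hSr, hW, div_mul_eq_mul_div]
    apply div_le_div_of_nonneg_right _ hl2.le
    have : k * Real.log 3 ≤ 4 * L * Real.log 3 := mul_le_mul_of_nonneg_right hk hl3.le
    linarith
  set K : ℕ := ⌊Sr⌋₊ with hK
  have hKle : (K : ℝ) ≤ Sr := Nat.floor_le hSr0
  classical
  have hcov : ∀ m ∈ HS x k \ {1}, ∃ s ∈ range (K + 1), m ∈ Lv s k := by
    rintro m ⟨⟨hm1, hm2, hm3⟩, hm4⟩
    have hmne : m ≠ 1 := hm4
    obtain ⟨s, hs, ho⟩ := lev_of_ht k m hm1 hmne hm3
    have hm1' : 1 ≤ m := by omega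
    refine ⟨s, ?_, hm1', hs, ho⟩
    rw [mem_range, Nat.lt_succ_iff]
    apply Nat.le_floor
    obtain ⟨_, g2⟩ := log_size hm1' hs
    rw [ho] at g2
    have g3 : Real.log m ≤ L := Real.log_le_log (by exact_mod_cast hm1') hm2
    rw [hSr, le_div_iff₀ hl2]
    linarith
  obtain ⟨hfin, hncard⟩ := ncard_le_sum (range (K + 1)) (fun s => Lv s k)
    (fun s _ => (Lv_fin s k).1) (HS x k \ {1}) hcov
  have hncard' : ((HS x k \ {1}).ncard : ℝ) ≤ ∑ s ∈ range (K + 1), ((Lv s k).ncard : ℝ) := by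
    exact_mod_cast hncard
  set B : ℝ := C * Real.exp (ε / (4 * W) * Sr + Sr * a + k * b) with hB
  have hB0 : 0 ≤ B := by positivity
  have hterm : ∀ s ∈ range (K + 1), ((Lv s k).ncard : ℝ) ≤ B := by
    intro s hs
    have hsK : s ≤ K := by
      rw [mem_range] at hs
      omega
    have hsS : (s : ℝ) ≤ Sr := (by exact_mod_cast hsK : (s : ℝ) ≤ K).trans hKle
    refine (hup s k).trans ?_
    apply mul_le_mul_of_nonneg_left _ hC.le
    apply Real.exp_le_exp.2
    have g1 : ε / (4 * W) * (s : ℝ) ≤ ε / (4 * W) * Sr := mul_le_mul_of_nonneg_left hsS (by positivity)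
    have g2 : (s : ℝ) * a ≤ Sr * a := mul_le_mul_of_nonneg_right hsS ha.le
    linarith
  have hsum : ∑ s ∈ range (K + 1), ((Lv s k).ncard : ℝ) ≤ (Sr + 1) * B := by
    calc ∑ s ∈ range (K + 1), ((Lv s k).ncard : ℝ) ≤ ∑ s ∈ range (K + 1), B := sum_le_sum hterm
      _ = ((K : ℝ) + 1) * B := by
          rw [sum_const, card_range, nsmul_eq_mul]
          push_cast
          ring
      _ ≤ (Sr + 1) * B := by
          apply mul_le_mul_of_nonneg_right _ hB0
          linarith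
  have htot : ((HS x k).ncard : ℝ) ≤ (Sr + 1) * B + 1 := by
    have h5 : (HS x k).ncard ≤ (HS x k \ {1}).ncard + ({1} : Set ℕ).ncard :=
      (Set.ncard_le_ncard (fun m hm => by
        by_cases h : m = 1
        · exact Or.inr h
        · exact Or.inl ⟨hm, h⟩) (hfin.union (Set.finite_singleton 1))).trans
        (Set.ncard_union_le _ _)
    rw [Set.ncard_singleton] at h5
    have h6 : ((HS x k).ncard : ℝ) ≤ ((HS x k \ {1}).ncard : ℝ) + 1 := by exact_mod_cast h5
    linarith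
  refine htot.trans ?_
  -- exponents
  have hSa : Sr * a = L * (SS (k / L) * a) + A * Real.log (k + 1) := by
    rw [hSr, hA]
    unfold SS
    have : L ≠ 0 := by linarith
    field_simp
  have hkb : (k : ℝ) * b = L * (k / L * b) := by
    have : L ≠ 0 := by linarith
    field_simp
  have huu : L * uu (k / L) z = L * (SS (k / L) * a) + L * (k / L * b) := by
    unfold uu
    ring
  have hL0 : 0 < L := by linarith
  have huu0 : 0 ≤ L * uu (k / L) z := by
    rw [huu, ← hkb]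
    unfold SS
    have e1 : L * ((1 + k / L * Real.log 3) / Real.log 2 * a) + k * b =
        (L * a + k * (a * Real.log 3 + b * Real.log 2)) / Real.log 2 := by
      field_simp
      ring
    rw [e1]
    exact div_nonneg (add_nonneg (mul_nonneg hL0.le ha.le) (mul_nonneg hkn hab.le)) hl2.le
  have hS1 : (0 : ℝ) < Sr + 1 := by linarith
  have e3 : (Sr + 1) * B = Real.exp (Real.log (Sr + 1) + (Real.log C +
      (ε / (4 * W) * Sr + Sr * a + k * b))) := by
    rw [Real.exp_add, Real.exp_add, Real.exp_log hS1, Real.exp_log hC, hB]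
  have g1 : A * Real.log ((k : ℝ) + 1) ≤ ε / 4 * L + A * K₁ := by
    have g2 := hK₁ (4 * L) (by linarith)
    have g3 : A * Real.log ((k : ℝ) + 1) ≤ A * (ε / (16 * A) * (4 * L) + K₁) :=
      mul_le_mul_of_nonneg_left (by linarith) hA0.le
    have g4 : A * (ε / (16 * A) * (4 * L) + K₁) = ε / 4 * L + A * K₁ := by
      field_simp
      ring
    linarith
  have g5 : Real.log (Sr + 1) ≤ ε / 4 * L + K₂ := by
    have g6 := hK₂ Sr hSr0
    have g7 : ε / (4 * W) * Sr ≤ ε / (4 * W) * (W * L) :=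
      mul_le_mul_of_nonneg_left hSrW (by positivity)
    have g8 : ε / (4 * W) * (W * L) = ε / 4 * L := by field_simp
    linarith
  have g9 : ε / (4 * W) * Sr ≤ ε / 4 * L := by
    have g7 : ε / (4 * W) * Sr ≤ ε / (4 * W) * (W * L) :=
      mul_le_mul_of_nonneg_left hSrW (by positivity)
    have g8 : ε / (4 * W) * (W * L) = ε / 4 * L := by field_simp
    linarith
  have g10 : A * K₁ + K₂ + |Real.log C| + Real.log 2 ≤ ε / 4 * L := by
    rw [div_le_iff₀ hε] at hL2
    linarith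
  have g11 := le_abs_self (Real.log C)
  have g12 : Real.log (Sr + 1) + (Real.log C + (ε / (4 * W) * Sr + Sr * a + k * b)) ≤
      L * (uu (k / L) z + ε) - Real.log 2 := by
    rw [hSa, hkb]
    have : L * (uu (k / L) z + ε) = L * uu (k / L) z + ε * L := by ring
    rw [this, huu]
    linarith
  have g13 : 0 ≤ L * (uu (k / L) z + ε) - Real.log 2 := by
    have g14 : L * (uu (k / L) z + ε) = L * uu (k / L) z + ε * L := by ring
    have g15 : 0 ≤ A * K₁ + K₂ + |Real.log C| := by positivity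
    have g16 : 0 ≤ ε / 4 * L := by positivity
    linarith
  calc (Sr + 1) * B + 1 ≤ Real.exp (L * (uu (k / L) z + ε) - Real.log 2) +
        Real.exp (L * (uu (k / L) z + ε) - Real.log 2) := by
        rw [e3]
        exact add_le_add (Real.exp_le_exp.2 g12) (Real.one_le_exp g13)
    _ = Real.exp (L * (uu (k / L) z + ε)) := by
        rw [Real.exp_sub, Real.exp_log (by norm_num)]
        ring

theorem SS_rho_half {β : ℝ} (h : 0 < β) (h1 : β ≤ 1 / Real.log (4 / 3)) : 0 < β / SS β ∧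
    β / SS β ≤ 1 / 2 := by
  have hS := SS_pos h.le
  have hl2 : 0 < Real.log 2 := Real.log_pos (by norm_num)
  have hl3 : 0 < Real.log 3 := Real.log_pos (by norm_num)
  have h43 : 0 < Real.log (4 / 3) := Real.log_pos (by norm_num)
  refine ⟨by positivity, ?_⟩
  rw [div_le_iff₀ hS]
  rw [le_div_iff₀ h43, log43] at h1
  unfold SS
  have : 1 / 2 * ((1 + β * Real.log 3) / Real.log 2) = (1 + β * Real.log 3) / (2 * Real.log 2) := by
    field_simp
  rw [this, le_div_iff₀ (by positivity)]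
  linarith

/-- the choice of the tilt for heights -/
theorem exists_tilt {β : ℝ} (h : 0 ≤ β) (h1 : β ≤ 1 / Real.log (4 / 3)) {ε : ℝ} (hε : 0 < ε) :
    ∃ z : ℝ, 1 / 2 < z ∧ z < 1 ∧ uu β z < ee β + ε := by
  have hl2 : 0 < Real.log 2 := Real.log_pos (by norm_num)
  rcases eq_or_lt_of_le h with rfl | h0
  · rw [ee_zero, zero_add]
    have hc : ContinuousAt (fun z : ℝ => -Real.log z / Real.log 2) 1 :=
      ((Real.continuousAt_log one_ne_zero).neg).div_const _
    have h2 : ∀ᶠ z in 𝓝[<] (1 : ℝ), -Real.log z / Real.log 2 < ε := by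
      refine (hc.mono_left nhdsWithin_le_nhds).eventually (gt_mem_nhds ?_)
      simpa using hε
    have h3 : ∀ᶠ z in 𝓝[<] (1 : ℝ), 1 / 2 < z :=
      (lt_mem_nhds (by norm_num : (1 / 2 : ℝ) < 1)).filter_mono nhdsWithin_le_nhds
    obtain ⟨z, hz1, hz2, hz3⟩ := (h2.and (h3.and self_mem_nhdsWithin)).exists
    refine ⟨z, hz2, hz3, ?_⟩
    unfold uu SS
    have : (1 + 0 * Real.log 3) / Real.log 2 * -Real.log z + 0 * -Real.log (3 * (1 - z) / z) =
        -Real.log z / Real.log 2 := by ring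
    rw [this]
    exact hz1
  · obtain ⟨g1, g2⟩ := SS_rho_half h0 h1
    have hS := SS_pos h
    obtain ⟨z, hz0, hz1, hz2, _⟩ := exists_z g1 g2 (show 0 < ε / (2 * SS β) by positivity)
    refine ⟨z, hz0, hz1, ?_⟩
    rw [uu_eq h, ee_eq h]
    have g3 : SS β * phi (β / SS β) z ≤ SS β * (FF (β / SS β) + ε / (2 * SS β)) :=
      mul_le_mul_of_nonneg_left hz2 hS.le
    have g4 : SS β * (FF (β / SS β) + ε / (2 * SS β)) = SS β * FF (β / SS β) + ε / 2 := by
      field_simp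
    linarith

/-- local upper bound -/
theorem ht_upper_local (hG : S_GEN) {β : ℝ} (h : 0 ≤ β) (h1 : β ≤ 1 / Real.log (4 / 3)) {ε : ℝ} (hε : 0 < ε) :
    ∃ δ : ℝ, 0 < δ ∧ ∃ X₀ : ℝ, 1 < X₀ ∧ ∀ x : ℝ, X₀ ≤ x → ∀ k : ℕ, (k : ℝ) ≤ 4 * Real.log x →
      |(k : ℝ) / Real.log x - β| < δ →
      ((HS x k).ncard : ℝ) ≤ Real.exp (Real.log x * (ee (k / Real.log x) + ε)) := by
  obtain ⟨z, hz0, hz1, hz2⟩ := exists_tilt h h1 (show 0 < ε / 4 by positivity)
  have c1 := (uu_cont z).continuousAt (x := β)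
  have c2 := ee_contAt h
  have e1 : ∀ᶠ y in 𝓝 β, uu y z < uu β z + ε / 4 := c1.eventually (gt_mem_nhds (by linarith))
  have e2 : ∀ᶠ y in 𝓝 β, ee β - ε / 4 < ee y := c2.eventually (lt_mem_nhds (by linarith))
  obtain ⟨δ, hδ, hball⟩ := Metric.eventually_nhds_iff.1 (e1.and e2)
  obtain ⟨X₀, hX₀, hup⟩ := ht_upper_core hG hz0 hz1 (show 0 < ε / 4 by positivity)
  refine ⟨δ, hδ, X₀, hX₀, fun x hx k hk hkβ => ?_⟩
  have hlog : 0 < Real.log x := Real.log_pos (by linarith)
  obtain ⟨g1, g2⟩ := hball (y := (k : ℝ) / Real.log x) (by rw [Real.dist_eq]; exact hkβ)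
  refine (hup x hx k hk).trans (Real.exp_le_exp.2 ?_)
  apply mul_le_mul_of_nonneg_left _ hlog.le
  linarith

/-- local lower bound away from `0` -/
theorem ht_lower_pos {β : ℝ} (h : 0 < β) (h1 : β ≤ 1 / Real.log (4 / 3)) {ε : ℝ} (hε : 0 < ε) :
    ∃ δ : ℝ, 0 < δ ∧ ∃ X₀ : ℝ, 1 < X₀ ∧ ∀ x : ℝ, X₀ ≤ x → ∀ k : ℕ, 1 ≤ k →
      |(k : ℝ) / Real.log x - β| < δ →
      Real.exp (Real.log x * (ee (k / Real.log x) - ε)) ≤ ((HS x k).ncard : ℝ) := by
  have hl2 : 0 < Real.log 2 := Real.log_pos (by norm_num)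
  have hl3 : 0 < Real.log 3 := Real.log_pos (by norm_num)
  obtain ⟨g1, g2⟩ := SS_rho_half h h1
  have hS := SS_pos h.le
  set ρ : ℝ := β / SS β with hρ
  -- the choice of `r`
  have hval : β * (FF ρ / ρ) = ee β := by
    rw [ee_eq h.le, hρ]
    field_simp
  have hval2 : β * (Real.log 2 / ρ - Real.log 3) = 1 := by
    rw [hρ]
    unfold SS
    field_simp
    ring
  have c1 : ContinuousAt (fun r => β * (FF r / r)) ρ :=
    continuousAt_const.mul (FF_cont.continuousAt.div continuousAt_id g1.ne')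
  have e1 : ∀ᶠ r in 𝓝[>] ρ, ee β - ε / 4 < β * (FF r / r) := by
    refine (c1.mono_left nhdsWithin_le_nhds).eventually (lt_mem_nhds ?_)
    change ee β - ε / 4 < β * (FF ρ / ρ)
    rw [hval]
    linarith
  have e2 : ∀ᶠ r in 𝓝[>] ρ, r < 4771 / 7833 :=
    (gt_mem_nhds (lt_of_le_of_lt g2 half_lt)).filter_mono nhdsWithin_le_nhds
  obtain ⟨r, hr1, hr2, hr3⟩ := (e1.and (e2.and self_mem_nhdsWithin)).exists
  have hr3' : ρ < r := hr3
  have hr0 : 0 < r := by linarith
  have hr11 : r < 1 := by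
    norm_num at hr2
    linarith
  have hFr : 0 < FF r := FF_pos_of hr0 hr2 (by norm_num) FF_low.le
  have hsz : β * (Real.log 2 / r - Real.log 3) < 1 := by
    rw [← hval2]
    apply mul_lt_mul_of_pos_left _ h
    have : Real.log 2 / r < Real.log 2 / ρ := div_lt_div_of_pos_left hl2 g1 hr3'
    linarith
  -- the choice of `δ`
  have c2 := ee_contAt h.le
  have e3 : ∀ᶠ y in 𝓝 β, ee y < ee β + ε / 4 := c2.eventually (gt_mem_nhds (by linarith))
  have e4 : ∀ᶠ y in 𝓝 β, 0 < y := lt_mem_nhds h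
  -- one function of two variables for the remaining conditions
  have c3 : ContinuousAt (fun q : ℝ × ℝ => q.1 * ((1 / r + q.2) * Real.log 2 - Real.log 3) + q.2)
      (β, 0) := by fun_prop
  have e5 : ∀ᶠ q in 𝓝 ((β, 0) : ℝ × ℝ), q.1 * ((1 / r + q.2) * Real.log 2 - Real.log 3) + q.2 < 1 := by
    refine c3.eventually (gt_mem_nhds ?_)
    have : β * ((1 / r + 0) * Real.log 2 - Real.log 3) + 0 = β * (Real.log 2 / r - Real.log 3) := by
      ring
    change β * ((1 / r + 0) * Real.log 2 - Real.log 3) + 0 < 1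
    rw [this]
    exact hsz
  have c4 : ContinuousAt (fun q : ℝ × ℝ => q.1 * (FF r / r - q.2)) (β, 0) := by fun_prop
  have e6 : ∀ᶠ q in 𝓝 ((β, 0) : ℝ × ℝ), ee β - ε / 2 < q.1 * (FF r / r - q.2) := by
    refine c4.eventually (lt_mem_nhds ?_)
    change ee β - ε / 2 < β * (FF r / r - 0)
    rw [sub_zero]
    linarith
  obtain ⟨δ₁, hδ₁, hball₁⟩ := Metric.eventually_nhds_iff.1 (e3.and e4)
  obtain ⟨δ₂, hδ₂, hball₂⟩ := Metric.eventually_nhds_iff.1 (e5.and e6)
  set d : ℝ := δ₂ / 2 with hd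
  have hd0 : 0 < d := by positivity
  obtain ⟨n₀, hn₀⟩ := eight_lower hr0 hr11 hFr hd0
  set δ : ℝ := min (min δ₁ δ₂) (β / 2) with hδ
  have hδ0 : 0 < δ := lt_min (lt_min hδ₁ hδ₂) (by positivity)
  refine ⟨δ, hδ0, Real.exp (max 1 (max (2 * n₀ / β) (3 * Real.log 2 / d))), ?_,
    fun x hx k hk1 hkβ => ?_⟩
  · have h5 := Real.add_one_le_exp (max 1 (max (2 * n₀ / β) (3 * Real.log 2 / d)))
    have h6 : (1 : ℝ) ≤ max 1 (max (2 * n₀ / β) (3 * Real.log 2 / d)) := le_max_left _ _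
    linarith
  have hx0 : 0 < x := lt_of_lt_of_le (Real.exp_pos _) hx
  have hL : max 1 (max (2 * n₀ / β) (3 * Real.log 2 / d)) ≤ Real.log x := by
    rw [Real.le_log_iff_exp_le hx0]
    exact hx
  set L : ℝ := Real.log x with hLdef
  have hL1 : 1 ≤ L := (le_max_left _ _).trans hL
  have hL2 : 2 * n₀ / β ≤ L := ((le_max_left _ _).trans (le_max_right _ _)).trans hL
  have hL3 : 3 * Real.log 2 / d ≤ L := ((le_max_right _ _).trans (le_max_right _ _)).trans hL
  have hL0 : 0 < L := by linarith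
  set y : ℝ := (k : ℝ) / L with hy
  have hky : (k : ℝ) = L * y := by
    rw [hy]
    field_simp
  have hδa : δ ≤ δ₁ := (min_le_left _ _).trans (min_le_left _ _)
  have hδb : δ ≤ δ₂ := (min_le_left _ _).trans (min_le_right _ _)
  have hδc : δ ≤ β / 2 := min_le_right _ _
  obtain ⟨p1, p2⟩ := hball₁ (y := y) (by rw [Real.dist_eq]; linarith)
  have hdist : dist ((y, d) : ℝ × ℝ) (β, 0) < δ₂ := by
    rw [Prod.dist_eq, max_lt_iff]
    constructor
    · rw [Real.dist_eq]
      change |y - β| < δ₂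
      linarith
    · rw [Real.dist_eq]
      change |d - 0| < δ₂
      rw [sub_zero, abs_of_pos hd0, hd]
      linarith
  obtain ⟨p3, p4⟩ := hball₂ hdist
  change y * ((1 / r + d) * Real.log 2 - Real.log 3) + d < 1 at p3
  change ee β - ε / 2 < y * (FF r / r - d) at p4
  have hkn0 : n₀ ≤ k := by
    have h5 : β / 2 ≤ y := by
      have := (abs_lt.1 hkβ).1
      linarith
    have h6 : (n₀ : ℝ) ≤ k := by
      rw [hky]
      rw [div_le_iff₀ h] at hL2
      nlinarith
    exact_mod_cast h6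
  obtain ⟨s, hs1, hs2⟩ := hn₀ k hkn0
  have hs3 := (abs_le.1 hs1).2
  have hsize : ((s : ℝ) + 3) * Real.log 2 - k * Real.log 3 ≤ Real.log x := by
    have h5 : (s : ℝ) ≤ k * (1 / r + d) := by
      have : (k : ℝ) / r + d * k = k * (1 / r + d) := by ring
      linarith
    have h6 : (s : ℝ) * Real.log 2 ≤ k * (1 / r + d) * Real.log 2 :=
      mul_le_mul_of_nonneg_right h5 hl2.le
    have h7 : 3 * Real.log 2 ≤ d * L := by
      rw [div_le_iff₀ hd0] at hL3
      linarith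
    have h8 : L * (y * ((1 / r + d) * Real.log 2 - Real.log 3) + d) ≤ L * 1 :=
      mul_le_mul_of_nonneg_left p3.le hL0.le
    have h9 : k * (1 / r + d) * Real.log 2 - k * Real.log 3 =
        L * (y * ((1 / r + d) * Real.log 2 - Real.log 3)) := by
      rw [hky]
      ring
    rw [← hLdef]
    linarith
  have hcard : ({m : ℕ | m ∈ Lv (s + 3) k ∧ m % 2 = 1}.ncard : ℝ) ≤ ((HS x k).ncard : ℝ) := by
    exact_mod_cast Set.ncard_le_ncard (eight_HS hk1 hx0 hsize) (HS_finite x k)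
  refine le_trans (Real.exp_le_exp.2 ?_) (hs2.trans hcard)
  rw [hky]
  have h10 : (FF r / r - d) * (L * y) = L * (y * (FF r / r - d)) := by ring
  rw [h10]
  apply mul_le_mul_of_nonneg_left _ hL0.le
  linarith

/-- local lower bound -/
theorem ht_lower_local {β : ℝ} (h : 0 ≤ β) (h1 : β ≤ 1 / Real.log (4 / 3)) {ε : ℝ} (hε : 0 < ε) :
    ∃ δ : ℝ, 0 < δ ∧ ∃ X₀ : ℝ, 1 < X₀ ∧ ∀ x : ℝ, X₀ ≤ x → ∀ k : ℕ, 1 ≤ k →
      |(k : ℝ) / Real.log x - β| < δ →
      Real.exp (Real.log x * (ee (k / Real.log x) - ε)) ≤ ((HS x k).ncard : ℝ) := by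
  rcases eq_or_lt_of_le h with rfl | h0
  · have c2 := ee_contAt (le_refl (0 : ℝ))
    have e3 : ∀ᶠ y in 𝓝 (0 : ℝ), ee y < ε := c2.eventually (gt_mem_nhds (by rw [ee_zero]; exact hε))
    obtain ⟨δ₁, hδ₁, hball₁⟩ := Metric.eventually_nhds_iff.1 e3
    obtain ⟨δ₂, hδ₂, X₀, hX₀, hne⟩ := small_heights
    refine ⟨min δ₁ δ₂, lt_min hδ₁ hδ₂, X₀, hX₀, fun x hx k hk hkβ => ?_⟩
    have hlog : 0 < Real.log x := Real.log_pos (by linarith)
    have h5 := hball₁ (y := (k : ℝ) / Real.log x) (by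
      rw [Real.dist_eq]
      exact hkβ.trans_le (min_le_left _ _))
    have h6 : (k : ℝ) ≤ δ₂ * Real.log x := by
      have h7 := (le_abs_self _).trans (hkβ.trans_le (min_le_right _ _)).le
      rw [sub_zero, div_le_iff₀ hlog] at h7
      exact h7
    have h8 : 1 ≤ (HS x k).ncard := by
      have := (Set.ncard_pos (HS_finite x k)).2 (hne x hx k hk h6)
      omega
    have h9 : (1 : ℝ) ≤ ((HS x k).ncard : ℝ) := by exact_mod_cast h8
    refine le_trans ?_ h9
    rw [Real.exp_le_one_iff]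
    apply mul_nonpos_of_nonneg_of_nonpos hlog.le
    linarith
  · exact ht_lower_pos h0 h1 hε

/-- THE UNIFORM THEOREM -/
theorem main_heights (hG : S_GEN) {ε : ℝ} (hε : 0 < ε) : ∃ X₀ : ℝ, 1 < X₀ ∧ ∀ x : ℝ, X₀ ≤ x → ∀ k : ℕ, 1 ≤ k →
    (k : ℝ) ≤ 1 / Real.log (4 / 3) * Real.log x →
    x ^ (ee (k / Real.log x) - ε) ≤ ((HS x k).ncard : ℝ) ∧
      ((HS x k).ncard : ℝ) ≤ x ^ (ee (k / Real.log x) + ε) := by
  have h43 : 0 < Real.log (4 / 3) := Real.log_pos (by norm_num)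
  have h43' : 1 / 4 ≤ Real.log (4 / 3) := by
    have e := log43
    have l2a := Real.log_two_gt_d9
    have l3b := Real.log_three_lt_d9
    norm_num at l2a l3b
    rw [e]
    linarith
  have hB2 : 1 / Real.log (4 / 3) ≤ 4 := by
    rw [div_le_iff₀ h43]
    linarith
  set B : ℝ := 1 / Real.log (4 / 3) with hB
  have hcomp : IsCompact (Set.Icc (0 : ℝ) B) := isCompact_Icc
  have key := hcomp.induction_on (p := fun S : Set ℝ => ∃ X₀ : ℝ, 1 < X₀ ∧ ∀ x : ℝ, X₀ ≤ x →
      ∀ k : ℕ, 1 ≤ k → (k : ℝ) / Real.log x ∈ S ∩ Set.Icc (0 : ℝ) B →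
      Real.exp (Real.log x * (ee (k / Real.log x) - ε)) ≤ ((HS x k).ncard : ℝ) ∧
      ((HS x k).ncard : ℝ) ≤ Real.exp (Real.log x * (ee (k / Real.log x) + ε)))
    ⟨2, by norm_num, fun x _ k _ hk => absurd hk.1 (Set.notMem_empty _)⟩
    (by
      rintro s t hst ⟨X₀, hX, h⟩
      exact ⟨X₀, hX, fun x hx k hk hks => h x hx k hk ⟨hst hks.1, hks.2⟩⟩)
    (by
      rintro s t ⟨X₀, hX, h⟩ ⟨X₁, hX', h'⟩
      refine ⟨max X₀ X₁, lt_max_of_lt_left hX, fun x hx k hk hks => ?_⟩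
      rcases hks.1 with h5 | h5
      · exact h x ((le_max_left _ _).trans hx) k hk ⟨h5, hks.2⟩
      · exact h' x ((le_max_right _ _).trans hx) k hk ⟨h5, hks.2⟩)
    (by
      intro β hβ
      obtain ⟨δ₁, hδ₁, X₁, hX₁, h₁⟩ := ht_upper_local hG hβ.1 hβ.2 hε
      obtain ⟨δ₂, hδ₂, X₂, hX₂, h₂⟩ := ht_lower_local hβ.1 hβ.2 hε
      refine ⟨Metric.ball β (min δ₁ δ₂), mem_nhdsWithin_of_mem_nhds
        (Metric.ball_mem_nhds β (lt_min hδ₁ hδ₂)), max X₁ X₂, lt_max_of_lt_left hX₁,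
        fun x hx k hk hks => ?_⟩
      have hlog : 0 < Real.log x := Real.log_pos (by
        have := (le_max_left X₁ X₂).trans hx
        linarith)
      have hd : |(k : ℝ) / Real.log x - β| < min δ₁ δ₂ := by
        have := hks.1
        rwa [Metric.mem_ball, Real.dist_eq] at this
      have hk2 : (k : ℝ) ≤ 4 * Real.log x := by
        have := hks.2.2
        rw [div_le_iff₀ hlog] at this
        have h5 : B * Real.log x ≤ 4 * Real.log x := mul_le_mul_of_nonneg_right hB2 hlog.le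
        linarith
      exact ⟨h₂ x ((le_max_right _ _).trans hx) k hk (hd.trans_le (min_le_right _ _)),
        h₁ x ((le_max_left _ _).trans hx) k hk2 (hd.trans_le (min_le_left _ _))⟩)
  obtain ⟨X₀, hX₀, h⟩ := key
  refine ⟨X₀, hX₀, fun x hx k hk hkB => ?_⟩
  have hx0 : 0 < x := by linarith
  have hlog : 0 < Real.log x := Real.log_pos (by linarith)
  have hmem : (k : ℝ) / Real.log x ∈ Set.Icc (0 : ℝ) B := by
    refine ⟨by positivity, ?_⟩
    rw [div_le_iff₀ hlog]
    exact hkB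
  rw [Real.rpow_def_of_pos hx0, Real.rpow_def_of_pos hx0]
  exact h x hx k hk ⟨hmem, hmem⟩

end Pool.Agent.N685.FT
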