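import Pool.Agent.N685.FT.Main2

/-! Project FT: the pressure of the levels. -/

set_option autoImplicit false
set_option linter.unusedVariables false

namespace Pool.Agent.N685.FT

open Finset Filter Topology Pool.Agent.H395R2.G3 Pool.Agent.Y966.LD

/-- the sum of `n ^ (θ - 1)` over the `n` of total stopping time `k` -/
noncomputable def Pr (θ : ℝ) (k : ℕ) : ℝ := ∑ᶠ n ∈ Lev k, (n : ℝ) ^ (θ - 1)

/-- `M(θ) = ½ (2^θ + (2/3)^θ)` -/
noncomputable def MM (θ : ℝ) : ℝ := 1 / 2 * ((2 : ℝ) ^ θ + (2 / 3 : ℝ) ^ θ)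

theorem Pr_eq (θ : ℝ) (k : ℕ) : Pr θ k = ∑ n ∈ (Lev_finite k).toFinset, (n : ℝ) ^ (θ - 1) := by
  unfold Pr
  exact finsum_mem_eq_finite_toFinset_sum _ (Lev_finite k)

/-- the tilt -/
noncomputable def zt (θ : ℝ) : ℝ := 1 / (1 + (3 : ℝ) ^ (-θ))

theorem zt_pos (θ : ℝ) : 0 < zt θ := by
  unfold zt
  positivity

theorem zt_lt (θ : ℝ) : zt θ < 1 := by
  unfold zt
  have : (0 : ℝ) < (3 : ℝ) ^ (-θ) := by positivity
  rw [div_lt_one (by positivity)]
  linarith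

theorem zt_half {θ : ℝ} (h : 0 < θ) : 1 / 2 < zt θ := by
  unfold zt
  have h1 : (3 : ℝ) ^ (-θ) < 1 := Real.rpow_lt_one_of_one_lt_of_neg (by norm_num) (by linarith)
  apply one_div_lt_one_div_of_lt (by positivity)
  linarith

theorem zt_half' {θ : ℝ} (h : 0 ≤ θ) : 1 / 2 ≤ zt θ := by
  rcases h.lt_or_eq with h | h
  · exact (zt_half h).le
  · rw [← h]
    unfold zt
    norm_num

theorem log_tt (θ : ℝ) : Real.log (3 * (1 - zt θ) / zt θ) = (1 - θ) * Real.log 3 := by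
  have h3 : (0 : ℝ) < (3 : ℝ) ^ (-θ) := by positivity
  have e : 3 * (1 - zt θ) / zt θ = (3 : ℝ) ^ (1 - θ) := by
    have e1 : (3 : ℝ) ^ (1 - θ) = 3 * (3 : ℝ) ^ (-θ) := by
      rw [show (1 : ℝ) - θ = 1 + -θ by ring, Real.rpow_add (by norm_num), Real.rpow_one]
    rw [e1]
    unfold zt
    field_simp
    ring
  rw [e, Real.log_rpow (by norm_num)]

theorem MM_pos (θ : ℝ) : 0 < MM θ := by
  unfold MM
  positivity

theorem log_MM (θ : ℝ) : Real.log (MM θ) = -Real.log (zt θ) + (θ - 1) * Real.log 2 := by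
  have h3 : (0 : ℝ) < (3 : ℝ) ^ (-θ) := by positivity
  have e : MM θ = (zt θ)⁻¹ * (2 : ℝ) ^ (θ - 1) := by
    have e1 : (2 : ℝ) ^ (θ - 1) = (2 : ℝ) ^ θ / 2 := by
      rw [Real.rpow_sub (by norm_num), Real.rpow_one]
    have e2 : (2 / 3 : ℝ) ^ θ = (2 : ℝ) ^ θ * (3 : ℝ) ^ (-θ) := by
      rw [Real.div_rpow (by norm_num) (by norm_num), Real.rpow_neg (by norm_num)]
      rfl
    unfold MM zt
    rw [e1, e2]
    field_simp
  rw [e, Real.log_mul (inv_pos.2 (zt_pos θ)).ne' (by positivity), Real.log_inv,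
    Real.log_rpow (by norm_num)]

/-- two-sided bound for the terms -/
theorem term_bounds {θ : ℝ} {n k : ℕ} (h : IsLeast {j : ℕ | fT^[j] n = 1} k) :
    (n : ℝ) ^ (θ - 1) ≤ Real.exp ((θ - 1) * (k * Real.log 2 - oN k n * Real.log 3) +
        |θ - 1| * Real.log (k + 1)) ∧
    Real.exp ((θ - 1) * (k * Real.log 2 - oN k n * Real.log 3) - |θ - 1| * Real.log (k + 1)) ≤
      (n : ℝ) ^ (θ - 1) := by
  have hn := pos_of_least h
  have hn0 : (0 : ℝ) < n := by exact_mod_cast hn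
  obtain ⟨h1, h2⟩ := log_size hn h
  have hk : Real.log ((oN k n : ℝ) + 1) ≤ Real.log ((k : ℝ) + 1) := by
    apply Real.log_le_log (by positivity)
    have : (oN k n : ℝ) ≤ k := by exact_mod_cast oN_le k n
    linarith
  have h3 : |Real.log n - (k * Real.log 2 - oN k n * Real.log 3)| ≤ Real.log (k + 1) := by
    rw [abs_le]
    constructor <;> linarith
  have h4 : |(θ - 1) * (Real.log n - (k * Real.log 2 - oN k n * Real.log 3))| ≤
      |θ - 1| * Real.log (k + 1) := by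
    rw [abs_mul]
    exact mul_le_mul_of_nonneg_left h3 (abs_nonneg _)
  obtain ⟨h5, h6⟩ := abs_le.1 h4
  rw [Real.rpow_def_of_pos hn0]
  constructor
  · apply Real.exp_le_exp.2
    linarith
  · apply Real.exp_le_exp.2
    linarith

theorem log_eps {A c : ℝ} (hc : 0 < c) : ∃ k₀ : ℕ, ∀ k : ℕ, k₀ ≤ k →
    A + |A| * Real.log ((k : ℝ) + 1) ≤ c * k := by
  obtain ⟨K, hK0, hK⟩ := log_lin (show 0 < c / (2 * (|A| + 1)) by positivity)
  obtain ⟨k₀, hk₀⟩ := exists_nat_ge ((|A| + |A| * K) / (c / 2))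
  refine ⟨k₀, fun k hk => ?_⟩
  have hkn : (0 : ℝ) ≤ k := Nat.cast_nonneg k
  have h1 : (|A| + |A| * K) / (c / 2) ≤ k := hk₀.trans (by exact_mod_cast hk)
  rw [div_le_iff₀ (by positivity)] at h1
  have h2 := mul_le_mul_of_nonneg_left (hK k hkn) (abs_nonneg A)
  have h3 : |A| * (c / (2 * (|A| + 1)) * k) ≤ c / 2 * k := by
    have h4 : |A| * (c / (2 * (|A| + 1))) ≤ c / 2 := by
      have h5 : |A| * (c / (2 * (|A| + 1))) = c / 2 * (|A| / (|A| + 1)) := by
        field_simp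
      rw [h5]
      have h6 : |A| / (|A| + 1) ≤ 1 := by
        rw [div_le_one (by positivity)]
        linarith
      have : 0 < c / 2 := by positivity
      nlinarith
    calc |A| * (c / (2 * (|A| + 1)) * k) = |A| * (c / (2 * (|A| + 1))) * k := by ring
      _ ≤ c / 2 * k := mul_le_mul_of_nonneg_right h4 hkn
  have h7 := le_abs_self A
  linarith

/-- the upper bound for `θ > 0` -/
theorem pr_upper (hG : S_GEN) {θ : ℝ} (hθ : 0 < θ) {ε : ℝ} (hε : 0 < ε) :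
    ∃ k₀ : ℕ, ∀ k : ℕ, k₀ ≤ k → Pr θ k ≤ Real.exp ((Real.log (MM θ) + ε) * k) := by
  obtain ⟨C, hC, hup⟩ := lv_upper hG (zt_half hθ) (zt_lt θ) (show 0 < ε / 2 by positivity)
  set A : ℝ := |Real.log C| + |θ - 1| + 1 with hA
  have hA1 : 1 ≤ A := by
    rw [hA]
    have := abs_nonneg (Real.log C)
    have := abs_nonneg (θ - 1)
    linarith
  obtain ⟨k₀, hk₀⟩ := log_eps (A := A) (show 0 < ε / 2 by positivity)
  refine ⟨k₀, fun k hk => ?_⟩
  have hkn : (0 : ℝ) ≤ k := Nat.cast_nonneg k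
  have hlog0 : 0 ≤ Real.log ((k : ℝ) + 1) := Real.log_nonneg (by linarith)
  have hAbs : |A| = A := abs_of_pos (by linarith)
  have hk1 := hk₀ k hk
  rw [hAbs] at hk1
  classical
  rw [Pr_eq]
  set F := (Lev_finite k).toFinset with hF
  have hmem : ∀ n ∈ F, n ∈ Lev k := fun n hn => (Lev_finite k).mem_toFinset.1 hn
  have hmaps : ∀ n ∈ F, oN k n ∈ range (k + 1) := fun n _ =>
    mem_range.2 (by have := oN_le k n; omega)
  rw [← sum_fiberwise_of_maps_to hmaps]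
  set L : ℝ := Real.log (MM θ) with hL
  have hterm : ∀ o ∈ range (k + 1), ∑ n ∈ F.filter (fun n => oN k n = o), (n : ℝ) ^ (θ - 1) ≤
      C * Real.exp (ε / 2 * k + L * k + |θ - 1| * Real.log (k + 1)) := by
    intro o ho
    have h1 : ∀ n ∈ F.filter (fun n => oN k n = o), (n : ℝ) ^ (θ - 1) ≤
        Real.exp ((θ - 1) * (k * Real.log 2 - o * Real.log 3) +
        |θ - 1| * Real.log (k + 1)) := by
      intro n hn
      have h2 := (term_bounds (θ := θ) (hmem n (mem_filter.1 hn).1)).1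
      rwa [(mem_filter.1 hn).2] at h2
    have h2 : ((F.filter (fun n => oN k n = o)).card : ℝ) ≤ ((Lv k o).ncard : ℝ) := by
      rw [← Set.ncard_coe_finset]
      have : ((F.filter (fun n => oN k n = o) : Finset ℕ) : Set ℕ) ⊆ Lv k o := by
        intro n hn
        rw [mem_coe, mem_filter] at hn
        exact ⟨pos_of_least (hmem n hn.1), hmem n hn.1, hn.2⟩
      exact_mod_cast Set.ncard_le_ncard this (Lv_fin k o).1
    refine (sum_le_sum h1).trans ?_
    rw [sum_const, nsmul_eq_mul]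
    refine (mul_le_mul_of_nonneg_right (h2.trans (hup k o)) (Real.exp_pos _).le).trans ?_
    rw [mul_assoc, ← Real.exp_add]
    apply mul_le_mul_of_nonneg_left _ hC.le
    apply Real.exp_le_exp.2
    rw [log_tt, hL, log_MM]
    apply le_of_eq
    ring
  refine (sum_le_sum hterm).trans ?_
  rw [sum_const, card_range, nsmul_eq_mul]
  have e1 : ((k + 1 : ℕ) : ℝ) = Real.exp (Real.log ((k : ℝ) + 1)) := by
    rw [Real.exp_log (by positivity)]
    push_cast
    ring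
  have e2 : C = Real.exp (Real.log C) := (Real.exp_log hC).symm
  rw [e1, e2, ← Real.exp_add, ← Real.exp_add]
  apply Real.exp_le_exp.2
  have h3 := le_abs_self (Real.log C)
  have h4 : Real.log ((k : ℝ) + 1) + |Real.log C| + |θ - 1| * Real.log (k + 1) ≤
      A + A * Real.log (k + 1) := by
    rw [hA]
    have h5 := mul_nonneg (abs_nonneg (Real.log C)) hlog0
    have h6 := abs_nonneg (θ - 1)
    nlinarith
  nlinarith

theorem lev_le {k n : ℕ} (h : n ∈ Lev k) : n ≤ 2 ^ k := by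
  have h1 := (size_bounds (pos_of_least h) h).1
  have h2 : (1 : ℝ) ≤ 3 ^ oN k n := one_le_pow₀ (by norm_num)
  have h3 : (0 : ℝ) ≤ n := Nat.cast_nonneg n
  have h4 : (n : ℝ) ≤ 2 ^ k := by nlinarith
  exact_mod_cast h4

/-- the upper bound for `θ = 0` -/
theorem pr_upper0 {ε : ℝ} (hε : 0 < ε) :
    ∃ k₀ : ℕ, ∀ k : ℕ, k₀ ≤ k → Pr 0 k ≤ Real.exp (ε * k) := by
  obtain ⟨k₀, hk₀⟩ := log_eps (A := 1) hε
  refine ⟨k₀, fun k hk => ?_⟩
  have hkn : (0 : ℝ) ≤ k := Nat.cast_nonneg k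
  have hl2 : Real.log 2 < 1 := by have := Real.log_two_lt_d9; linarith
  rw [Pr_eq]
  have hsub : (Lev_finite k).toFinset ⊆ Icc 1 (2 ^ k) := by
    intro n hn
    have h := (Lev_finite k).mem_toFinset.1 hn
    rw [mem_Icc]
    exact ⟨pos_of_least h, lev_le h⟩
  have h1 : ∑ n ∈ (Lev_finite k).toFinset, (n : ℝ) ^ ((0 : ℝ) - 1) ≤
      ∑ n ∈ Icc (1 : ℕ) (2 ^ k), ((n : ℕ) : ℝ)⁻¹ := by
    refine le_trans (le_of_eq ?_) (sum_le_sum_of_subset_of_nonneg hsub fun n _ _ => by positivity)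
    refine sum_congr rfl fun n _ => ?_
    rw [zero_sub, Real.rpow_neg_one]
  refine h1.trans ?_
  have h2 := harmonic_le_one_add_log (2 ^ k)
  have h3 : ((harmonic (2 ^ k) : ℚ) : ℝ) = ∑ n ∈ Icc (1 : ℕ) (2 ^ k), ((n : ℕ) : ℝ)⁻¹ := by
    rw [harmonic_eq_sum_Icc]
    push_cast
    rfl
  rw [h3] at h2
  refine h2.trans ?_
  push_cast
  rw [Real.log_pow]
  have h4 := hk₀ k hk
  rw [abs_one, one_mul] at h4
  have h5 : (k : ℝ) * Real.log 2 ≤ k := by nlinarith
  have h6 : 1 + (k : ℝ) ≤ Real.exp (1 + Real.log ((k : ℝ) + 1)) := by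
    rw [Real.exp_add, Real.exp_log (by positivity)]
    have : (1 : ℝ) ≤ Real.exp 1 := Real.one_le_exp (by norm_num)
    nlinarith
  calc 1 + (k : ℝ) * Real.log 2 ≤ 1 + k := by linarith
    _ ≤ Real.exp (1 + Real.log ((k : ℝ) + 1)) := h6
    _ ≤ Real.exp (ε * k) := Real.exp_le_exp.2 h4

/-- the lower bound -/
theorem pr_lower {θ : ℝ} (hF : 0 < FF (1 - zt θ)) {ε : ℝ} (hε : 0 < ε) :
    ∃ k₀ : ℕ, ∀ k : ℕ, k₀ ≤ k → Real.exp ((Real.log (MM θ) - ε) * k) ≤ Pr θ k := by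
  have hz0 := zt_pos θ
  have hz1 := zt_lt θ
  set r : ℝ := 1 - zt θ with hr
  have hr0 : 0 < r := by rw [hr]; linarith
  have hr1 : r < 1 := by rw [hr]; linarith
  have hl3 : 0 < Real.log 3 := Real.log_pos (by norm_num)
  set D : ℝ := 1 + |θ - 1| * Real.log 3 with hD
  have hD0 : 0 < D := by positivity
  obtain ⟨k₁, hk₁⟩ := level_lower hr0 hr1 hF (show 0 < ε / (2 * D) by positivity)
  obtain ⟨k₂, hk₂⟩ := log_eps (A := |θ - 1|) (show 0 < ε / 2 by positivity)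
  refine ⟨max k₁ k₂, fun k hk => ?_⟩
  have hkn : (0 : ℝ) ≤ k := Nat.cast_nonneg k
  obtain ⟨o, ho1, ho2⟩ := hk₁ k ((le_max_left _ _).trans hk)
  have hlog := hk₂ k ((le_max_right _ _).trans hk)
  rw [abs_abs] at hlog
  have hFF : FF r = -Real.log (zt θ) - r * ((1 - θ) * Real.log 3) := by
    rw [← phi_eq hr0 hr1]
    unfold phi
    have e : 1 - r = zt θ := by rw [hr]; ring
    rw [e, log_tt]
    ring
  rw [Pr_eq]
  classical
  have hsub : (Lv_fin k o).1.toFinset ⊆ (Lev_finite k).toFinset := by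
    intro n hn
    have h := (Lv_fin k o).1.mem_toFinset.1 hn
    exact (Lev_finite k).mem_toFinset.2 h.2.1
  refine le_trans ?_ (sum_le_sum_of_subset_of_nonneg hsub fun n _ _ => by positivity)
  have hterm : ∀ n ∈ (Lv_fin k o).1.toFinset,
      Real.exp ((θ - 1) * (k * Real.log 2 - o * Real.log 3) - |θ - 1| * Real.log (k + 1)) ≤
        (n : ℝ) ^ (θ - 1) := by
    intro n hn
    have h := (Lv_fin k o).1.mem_toFinset.1 hn
    have h2 := (term_bounds (θ := θ) h.2.1).2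
    rwa [h.2.2] at h2
  refine le_trans ?_ (sum_le_sum hterm)
  rw [sum_const, nsmul_eq_mul, ← Set.ncard_eq_toFinset_card _ (Lv_fin k o).1]
  refine le_trans ?_ (mul_le_mul_of_nonneg_right ho2 (Real.exp_pos _).le)
  rw [← Real.exp_add]
  apply Real.exp_le_exp.2
  rw [hFF, log_MM]
  -- the error of the frequency
  have h5 : |(θ - 1) * Real.log 3 * (o - r * k)| ≤ |θ - 1| * Real.log 3 * (ε / (2 * D) * k) := by
    rw [abs_mul, abs_mul, abs_of_pos hl3]
    exact mul_le_mul_of_nonneg_left ho1 (by positivity)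
  have h6 := (abs_le.1 h5).2
  have h7 : |θ - 1| * Real.log 3 * (ε / (2 * D) * k) + ε / (2 * D) * k = ε / 2 * k := by
    have : |θ - 1| * Real.log 3 * (ε / (2 * D) * k) + ε / (2 * D) * k =
        D * (ε / (2 * D) * k) := by rw [hD]; ring
    rw [this]
    field_simp
  have h8 : |θ - 1| * Real.log (k + 1) ≤ ε / 2 * k := by
    have := abs_nonneg (θ - 1)
    linarith
  nlinarith

theorem zt_freq {θ : ℝ} (hθ : 0 ≤ θ) : 0 < FF (1 - zt θ) := by
  have h1 := zt_half' hθ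
  have h2 := zt_lt θ
  exact FF_pos_of (by linarith) (lt_of_le_of_lt (by linarith) half_lt) (by norm_num) FF_low.le

theorem main_pressure (hG : S_GEN) : ∀ θ : ℝ, 0 ≤ θ → ∀ ε : ℝ, 0 < ε → ∃ k₀ : ℕ, ∀ k : ℕ, k₀ ≤ k →
    Real.exp ((Real.log (MM θ) - ε) * k) ≤ Pr θ k ∧
      Pr θ k ≤ Real.exp ((Real.log (MM θ) + ε) * k) := by
  intro θ hθ ε hε
  obtain ⟨k₁, hk₁⟩ := pr_lower (zt_freq hθ) hε
  have hup : ∃ k₀ : ℕ, ∀ k : ℕ, k₀ ≤ k → Pr θ k ≤ Real.exp ((Real.log (MM θ) + ε) * k) := by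
    rcases hθ.lt_or_eq with h | h
    · exact pr_upper hG h hε
    · obtain ⟨k₀, hk₀⟩ := pr_upper0 hε
      refine ⟨k₀, fun k hk => ?_⟩
      have e : Real.log (MM θ) = 0 := by
        rw [← h]
        unfold MM
        norm_num
      rw [e, zero_add, ← h]
      exact hk₀ k hk
  obtain ⟨k₂, hk₂⟩ := hup
  exact ⟨max k₁ k₂, fun k hk => ⟨hk₁ k ((le_max_left _ _).trans hk),
    hk₂ k ((le_max_right _ _).trans hk)⟩⟩

end Pool.Agent.N685.FT
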