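import Pool.Agent.N685.FT.Stm

/-!
PROJECT FT (helper685), part BAD (helper227): heavy blocks meet long pieces
-/

set_option autoImplicit false

namespace Pool.Agent.N685.FT

open Finset Pool.Agent.H377R2.NK
open scoped Classical

namespace BadAux

theorem fin_append (x : ℤ) (u v : List ℕ) : fin x (u ++ v) = fin (fin x u) v := by
  induction u generalizing x with
  | nil => rfl
  | cons e u ih => exact ih (st e x)

theorem ok_append {x : ℤ} {u v : List ℕ} (h : ok x (u ++ v)) : ok x u ∧ ok (fin x u) v := by
  induction u generalizing x with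
  | nil => exact ⟨trivial, h⟩
  | cons e u ih =>
    obtain ⟨h1, h2, h3⟩ := h
    exact ⟨⟨h1, h2, (ih h3).1⟩, (ih h3).2⟩

/-- upper bound for the endpoint -/
theorem fin_upper (x : ℤ) (w : List ℕ) : 3 ^ w.length * fin x w ≤ 2 ^ w.sum * x := by
  induction w generalizing x with
  | nil => simp [fin]
  | cons e w ih =>
    have h1 := ih (st e x)
    have h2 : 3 * st e x ≤ 2 ^ e * x := by
      unfold st
      have : 3 * ((2 ^ e * x - 1) / 3) ≤ 2 ^ e * x - 1 := Int.mul_ediv_self_le (by norm_num)
      omega
    show 3 ^ (w.length + 1) * fin (st e x) w ≤ 2 ^ (e + w.sum) * x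
    calc (3 : ℤ) ^ (w.length + 1) * fin (st e x) w = 3 * (3 ^ w.length * fin (st e x) w) := by ring
      _ ≤ 3 * (2 ^ w.sum * st e x) := mul_le_mul_of_nonneg_left h1 (by norm_num)
      _ = 2 ^ w.sum * (3 * st e x) := by ring
      _ ≤ 2 ^ w.sum * (2 ^ e * x) := mul_le_mul_of_nonneg_left h2 (by positivity)
      _ = 2 ^ (e + w.sum) * x := by rw [pow_add]; ring

/-- lower bound for the endpoint -/
theorem fin_lower {x : ℤ} {w : List ℕ} (h : ok x w) (hx : 1 ≤ x) :
    1 ≤ fin x w ∧ x ≤ 3 ^ w.length * fin x w := by
  induction w generalizing x with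
  | nil => exact ⟨hx, by simp [fin]⟩
  | cons e w ih =>
    obtain ⟨h1, h2, h3⟩ := h
    have e1 : 3 * st e x = 2 ^ e * x - 1 := by
      unfold st
      exact Int.mul_ediv_cancel' h2
    have e2 : (2 : ℤ) ≤ 2 ^ e := by
      calc (2 : ℤ) = 2 ^ 1 := by norm_num
        _ ≤ 2 ^ e := pow_le_pow_right₀ (by norm_num) h1
    have e3 : 2 * x ≤ 2 ^ e * x := mul_le_mul_of_nonneg_right e2 (by omega)
    obtain ⟨h4, h5⟩ := ih h3 (by omega)
    refine ⟨h4, ?_⟩
    show x ≤ 3 ^ (w.length + 1) * fin (st e x) w
    calc x ≤ 3 * st e x := by omega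
      _ ≤ 3 * (3 ^ w.length * fin (st e x) w) := mul_le_mul_of_nonneg_left h5 (by norm_num)
      _ = 3 ^ (w.length + 1) * fin (st e x) w := by ring

theorem pieces_append {a : ℤ} {P Q : List (List ℕ)} (h : Pieces a (P ++ Q)) :
    Pieces a P ∧ Pieces (fin a P.flatten) Q := by
  induction P generalizing a with
  | nil => exact ⟨trivial, h⟩
  | cons u P ih =>
    obtain ⟨h1, h2⟩ := h
    obtain ⟨h3, h4⟩ := ih h2
    refine ⟨⟨h1, h3⟩, ?_⟩
    rw [List.flatten_cons, fin_append]
    exact h4

theorem pieces_le {a : ℤ} {P : List (List ℕ)} (h : Pieces a P) : a ≤ fin a P.flatten := by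
  induction P generalizing a with
  | nil => exact le_rfl
  | cons u P ih =>
    obtain ⟨h1, h2⟩ := h
    rw [List.flatten_cons, fin_append]
    exact h1.2.2.1.le.trans (ih h2)

/-- all points after the start are larger -/
theorem pieces_above {a : ℤ} {P : List (List ℕ)} (h : Pieces a P) (k : ℕ) (hk : 0 < k)
    (hk2 : k ≤ P.flatten.length) : a < fin a (P.flatten.take k) := by
  induction P generalizing a k with
  | nil => simp at hk2; omega
  | cons u P ih =>
    obtain ⟨h1, h2⟩ := h
    rw [List.flatten_cons, List.length_append] at hk2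
    rw [List.flatten_cons, List.take_append]
    by_cases hku : k ≤ u.length
    · rw [Nat.sub_eq_zero_of_le hku, List.take_zero, List.append_nil]
      exact h1.2.2.1.trans_le (h1.2.2.2 k hk hku)
    · rw [List.take_of_length_le (by omega), fin_append]
      exact h1.2.2.1.trans (ih h2 (k - u.length) (by omega) (by omega))

theorem nbn_eq (z : ℝ) (b n : ℕ) (w : List ℕ) : nbn z b n w =
    ((Finset.range n).filter (fun j => 1 < wt z ((w.drop (j * b)).take b))).card := by
  induction n generalizing w with
  | zero => rfl
  | succ n ih =>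
    show (if 1 < wt z (w.take b) then 1 else 0) + nbn z b n (w.drop b) = _
    rw [ih, Finset.card_filter, Finset.card_filter, Finset.sum_range_succ', add_comm]
    congr 1
    · refine Finset.sum_congr rfl fun j _ => ?_
      rw [List.drop_drop]
      have e : b + j * b = (j + 1) * b := by ring
      rw [e]
    · rw [Nat.zero_mul, List.drop_zero]

theorem card_mult (b r l : ℕ) (F : Finset ℕ) (h : ∀ j ∈ F, r ≤ j * b ∧ j * b < r + l) :
    b * F.card ≤ l + b := by
  by_cases hF : F.Nonempty
  · set m := F.min' hF with hm
    set M := F.max' hF with hM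
    have h1 : F ⊆ Finset.Icc m M := fun j hj =>
      Finset.mem_Icc.2 ⟨Finset.min'_le F j hj, Finset.le_max' F j hj⟩
    have h2 := Finset.card_le_card h1
    rw [Nat.card_Icc] at h2
    have h3 := (h m (Finset.min'_mem F hF)).1
    have h4 := (h M (Finset.max'_mem F hF)).2
    have h5 : m ≤ M := Finset.min'_le F M (Finset.max'_mem F hF)
    obtain ⟨d, hd⟩ := Nat.exists_eq_add_of_le h5
    have h6 : F.card ≤ d + 1 := by omega
    have h7 : b * F.card ≤ b * (d + 1) := Nat.mul_le_mul_left _ h6
    rw [hd] at h4
    have h8 : (m + d) * b = m * b + d * b := by ring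
    have h9 : b * (d + 1) = d * b + b := by ring
    omega
  · rw [Finset.not_nonempty_iff_eq_empty] at hF
    rw [hF, Finset.card_empty]
    omega

theorem count_le {b : ℕ} {c : ℝ} (hc : 0 < c) (P : List (List ℕ)) :
    ∀ (r : ℕ) (J : Finset ℕ), (∀ j ∈ J, ∀ (P1 : List (List ℕ)) (u : List ℕ) (P2 : List (List ℕ)),
      P = P1 ++ u :: P2 → r + P1.flatten.length ≤ j * b →
      j * b < r + P1.flatten.length + u.length → ⌈c * b⌉₊ ≤ u.length) →
    ((b * (J.filter (fun j => r ≤ j * b ∧ j * b < r + P.flatten.length)).card : ℕ) : ℝ) ≤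
      (1 + 1 / c) * (((P.map List.length).filter (fun l => ⌈c * b⌉₊ ≤ l)).sum : ℕ) := by
  induction P with
  | nil =>
    intro r J _
    have : J.filter (fun j => r ≤ j * b ∧ j * b < r + ([] : List (List ℕ)).flatten.length) = ∅ := by
      rw [Finset.filter_eq_empty_iff]
      intro j _ hj
      simp only [List.flatten_nil, List.length_nil] at hj
      omega
    rw [this, Finset.card_empty, Nat.mul_zero, Nat.cast_zero]
    simp
  | cons u P ih =>
    intro r J hJ
    have h1 := ih (r + u.length) J (by
      intro j hj P1 u1 P2 hP hle hlt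
      refine hJ j hj (u :: P1) u1 P2 (by rw [hP, List.cons_append]) ?_ ?_
      · rw [List.flatten_cons, List.length_append]
        omega
      · rw [List.flatten_cons, List.length_append]
        omega)
    set F1 := J.filter (fun j => r ≤ j * b ∧ j * b < r + u.length) with hF1
    set F2 := J.filter (fun j => r + u.length ≤ j * b ∧ j * b < r + u.length + P.flatten.length)
      with hF2
    have hsub : J.filter (fun j => r ≤ j * b ∧ j * b < r + (u :: P).flatten.length) ⊆ F1 ∪ F2 := by
      intro j hj
      rw [Finset.mem_filter, List.flatten_cons, List.length_append] at hj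
      rw [Finset.mem_union, hF1, hF2, Finset.mem_filter, Finset.mem_filter]
      by_cases h : j * b < r + u.length
      · exact Or.inl ⟨hj.1, hj.2.1, h⟩
      · exact Or.inr ⟨hj.1, by omega, by omega⟩
    have hcard := (Finset.card_le_card hsub).trans (Finset.card_union_le _ _)
    have h2 : ((b * (J.filter (fun j => r ≤ j * b ∧ j * b < r + (u :: P).flatten.length)).card : ℕ)
        : ℝ) ≤ ((b * F1.card : ℕ) : ℝ) + ((b * F2.card : ℕ) : ℝ) := by
      rw [← Nat.cast_add, ← Nat.mul_add]
      exact_mod_cast Nat.mul_le_mul_left b hcard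
    refine h2.trans ?_
    rw [List.map_cons]
    by_cases hu : ⌈c * b⌉₊ ≤ u.length
    · rw [List.filter_cons_of_pos (by simpa using hu), List.sum_cons, Nat.cast_add, mul_add]
      refine add_le_add ?_ h1
      have h3 := card_mult b r u.length F1 (fun j hj => (Finset.mem_filter.1 hj).2)
      have h4 : c * b ≤ u.length := (Nat.le_ceil _).trans (by exact_mod_cast hu)
      have h5 : (b : ℝ) ≤ u.length / c := by
        rw [le_div_iff₀ hc]
        linarith
      calc ((b * F1.card : ℕ) : ℝ) ≤ ((u.length + b : ℕ) : ℝ) := by exact_mod_cast h3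
        _ = u.length + b := by push_cast; ring
        _ ≤ u.length + u.length / c := by linarith
        _ = (1 + 1 / c) * u.length := by ring
    · rw [List.filter_cons_of_neg (by simpa using hu)]
      have h3 : F1 = ∅ := by
        rw [Finset.eq_empty_iff_forall_notMem]
        intro j hj
        obtain ⟨h4, h5, h6⟩ := Finset.mem_filter.1 hj
        apply hu
        refine hJ j h4 [] u P rfl ?_ ?_
        · simpa using h5
        · simpa using h6
      rw [h3, Finset.card_empty, Nat.mul_zero, Nat.cast_zero, zero_add]
      exact h1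

theorem key_ineq {z : ℝ} (h0 : 1 / 2 < z) (h1 : z < 1) :
    Real.log 2 * Real.log (tt z) < Real.log 3 * (-Real.log z) := by
  have hz : 0 < z := by linarith
  have hz1 : 0 < 1 - z := by linarith
  have e1 : Real.log (tt z) = Real.log 3 + Real.log (1 - z) - Real.log z := by
    unfold tt
    rw [Real.log_div (by positivity) hz.ne', Real.log_mul (by norm_num) hz1.ne']
  have e2 : Real.log 2 + Real.log z ≤ 2 * z - 1 := by
    rw [← Real.log_mul (by norm_num) hz.ne']
    exact Real.log_le_sub_one_of_pos (by positivity)
  have e3 : Real.log 2 + Real.log (1 - z) ≤ 2 * (1 - z) - 1 := by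
    rw [← Real.log_mul (by norm_num) hz1.ne']
    exact Real.log_le_sub_one_of_pos (by positivity)
  have l2 : 0 < Real.log 2 := Real.log_pos (by norm_num)
  have l32 : 0 < Real.log 3 - Real.log 2 := by
    rw [sub_pos]
    exact Real.log_lt_log (by norm_num) (by norm_num)
  have l43 : 0 < 2 * Real.log 2 - Real.log 3 := by
    have : Real.log 4 = 2 * Real.log 2 := by
      rw [show (4 : ℝ) = 2 ^ 2 by norm_num, Real.log_pow]
      norm_num
    rw [← this, sub_pos]
    exact Real.log_lt_log (by norm_num) (by norm_num)
  rw [e1]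
  have f1 : (Real.log 3 - Real.log 2) * (Real.log 2 + Real.log z) ≤
      (Real.log 3 - Real.log 2) * (2 * z - 1) := mul_le_mul_of_nonneg_left e2 l32.le
  have f2 : Real.log 2 * (Real.log 2 + Real.log (1 - z)) ≤ Real.log 2 * (2 * (1 - z) - 1) :=
    mul_le_mul_of_nonneg_left e3 l2.le
  have f3 : 0 < (2 * z - 1) * (2 * Real.log 2 - Real.log 3) :=
    mul_pos (by linarith) l43
  nlinarith

end BadAux

open BadAux

theorem t_BAD : S_BAD := by
  intro z hz0 hz1
  have hz : 0 < z := by linarith
  have htt : 0 < tt z := by
    unfold tt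
    have : 0 < 1 - z := by linarith
    positivity
  set L : ℝ := -Real.log z with hL
  have hL0 : 0 < L := by
    rw [hL, neg_pos]
    exact Real.log_neg hz hz1
  have l2 : 0 < Real.log 2 := Real.log_pos (by norm_num)
  have l3 : 0 < Real.log 3 := Real.log_pos (by norm_num)
  set m : ℝ := max (Real.log (tt z)) 0 with hm
  have hm0 : 0 ≤ m := le_max_right _ _
  have hm1 : Real.log (tt z) ≤ m := le_max_left _ _
  have hkey : Real.log 2 * m < Real.log 3 * L := by
    rcases max_choice (Real.log (tt z)) 0 with h | h
    · rw [hm, h]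
      exact key_ineq hz0 hz1
    · rw [hm, h, mul_zero]
      positivity
  set c1 : ℝ := Real.log 3 - Real.log 2 * m / L with hc1
  have hc10 : 0 < c1 := by
    rw [hc1, sub_pos, div_lt_iff₀ hL0]
    exact hkey
  set c : ℝ := c1 / Real.log 3 with hc
  have hc0 : 0 < c := by positivity
  have hcle : c ≤ 1 := by
    rw [hc, div_le_one l3, hc1]
    have : 0 ≤ Real.log 2 * m / L := by positivity
    linarith
  refine ⟨c, hc0, hcle, ?_⟩
  intro b a P hb ha hP
  set w := P.flatten with hw
  set J := (Finset.range (w.length / b)).filter (fun j => 1 < wt z ((w.drop (j * b)).take b))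
    with hJ
  have hnb : nb z b w = J.card := nbn_eq _ _ _ _
  have hJb : ∀ j ∈ J, j * b + b ≤ w.length := by
    intro j hj
    have h1 := Finset.mem_range.1 (Finset.mem_filter.1 hj).1
    have h2 : (j + 1) * b ≤ w.length / b * b := Nat.mul_le_mul_right _ (by omega)
    have h3 := Nat.div_mul_le_self w.length b
    have h4 : (j + 1) * b = j * b + b := by ring
    omega
  have hmain := count_le (b := b) hc0 P 0 J (by
    intro j hj P1 u P2 hPP hle hlt
    rw [Nat.zero_add] at hle hlt
    have hlong := hJb j hj
    have hwt := (Finset.mem_filter.1 hj).2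
    rw [hPP] at hP
    obtain ⟨hP1, hP2⟩ := pieces_append hP
    obtain ⟨hu, hP3⟩ := hP2
    set A := P1.flatten with hA
    set a' := fin a A with ha'
    have ha1 : 1 ≤ a' := ha.trans (pieces_le hP1)
    obtain ⟨i, hi⟩ := Nat.exists_eq_add_of_le hle
    have hiu : i < u.length := by omega
    set t := u ++ P2.flatten with ht
    have hwA : w = A ++ t := by
      rw [hw, hPP, List.flatten_append, List.flatten_cons]
    have hdrop : w.drop (j * b) = t.drop i := by
      rw [hwA, hi, List.drop_append, List.drop_of_length_le (by omega), List.nil_append]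
      congr 1
      omega
    rw [hdrop] at hwt
    have htl : t.length = u.length + P2.flatten.length := List.length_append
    have hwl : w.length = A.length + t.length := by rw [hwA, List.length_append]
    set B := (t.drop i).take b with hB
    have hBl : B.length = b := by
      rw [hB, List.length_take, List.length_drop]
      omega
    set y := fin a' (u.take i) with hy
    have hok := hu.2.1
    have hok2 : ok a' (u.take i ++ u.drop i) := by rwa [List.take_append_drop]
    obtain ⟨o1, o2⟩ := ok_append hok2
    have hy1 : 1 ≤ y := (fin_lower o1 ha1).1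
    have hfu : fin a' u = fin y (u.drop i) := by
      rw [hy, ← fin_append a' (u.take i) (u.drop i), List.take_append_drop]
    have h1 := fin_lower o2 hy1
    rw [← hfu, List.length_drop] at h1
    obtain ⟨hf1, hf2⟩ := h1
    have h2 := fin_upper y B
    rw [hBl] at h2
    have h3 : fin y B = fin a' (t.take (i + b)) := by
      rw [List.take_add, fin_append, ← hB]
      congr 1
      rw [hy, ht, List.take_append_of_le_length hiu.le]
    have h4 : fin a' u ≤ fin y B := by
      rw [h3, ht, List.take_append]
      by_cases hk : i + b ≤ u.length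
      · rw [Nat.sub_eq_zero_of_le hk, List.take_zero, List.append_nil]
        exact hu.2.2.2 (i + b) (by omega) hk
      · rw [List.take_of_length_le (by omega), fin_append]
        exact (pieces_above hP3 (i + b - u.length) (by omega) (by omega)).le
    -- combine
    have h5 : (3 : ℤ) ^ b * fin a' u ≤ 2 ^ B.sum * (3 ^ (u.length - i) * fin a' u) := by
      calc (3 : ℤ) ^ b * fin a' u ≤ 3 ^ b * fin y B := mul_le_mul_of_nonneg_left h4 (by positivity)
        _ ≤ 2 ^ B.sum * y := h2
        _ ≤ 2 ^ B.sum * (3 ^ (u.length - i) * fin a' u) :=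
            mul_le_mul_of_nonneg_left hf2 (by positivity)
    have h6 : (3 : ℤ) ^ b ≤ 2 ^ B.sum * 3 ^ (u.length - i) := by
      rw [← mul_assoc] at h5
      exact le_of_mul_le_mul_right h5 (by omega)
    have h7 : (3 : ℝ) ^ b ≤ 2 ^ B.sum * 3 ^ (u.length - i) := by exact_mod_cast h6
    have h8 := Real.log_le_log (by positivity) h7
    rw [Real.log_mul (by positivity) (by positivity), Real.log_pow, Real.log_pow, Real.log_pow] at h8
    have h9 : 0 < (b : ℝ) * Real.log (tt z) + B.sum * Real.log z := by
      have h10 := Real.log_pos hwt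
      unfold wt at h10
      rwa [hBl, Real.log_mul (by positivity) (by positivity), Real.log_pow, Real.log_pow] at h10
    have h11 : (B.sum : ℝ) * L ≤ b * m := by
      have : (b : ℝ) * Real.log (tt z) ≤ b * m := mul_le_mul_of_nonneg_left hm1 (by positivity)
      rw [hL]
      linarith
    have h12 : (B.sum : ℝ) ≤ b * (m / L) := by
      rw [← mul_div_assoc, le_div_iff₀ hL0]
      exact h11
    have h13 : (B.sum : ℝ) * Real.log 2 ≤ b * (Real.log 2 * m / L) := by
      calc (B.sum : ℝ) * Real.log 2 ≤ b * (m / L) * Real.log 2 :=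
            mul_le_mul_of_nonneg_right h12 l2.le
        _ = b * (Real.log 2 * m / L) := by ring
    have h14 : b * c1 ≤ ((u.length - i : ℕ) : ℝ) * Real.log 3 := by
      rw [hc1, mul_sub]
      linarith
    have h15 : c * b ≤ u.length := by
      have h16 : ((u.length - i : ℕ) : ℝ) ≤ u.length := by exact_mod_cast Nat.sub_le _ _
      have h17 : c * b ≤ ((u.length - i : ℕ) : ℝ) := by
        rw [hc, div_mul_eq_mul_div, div_le_iff₀ l3]
        linarith
      linarith
    exact Nat.ceil_le.2 h15)
  have hfil : J.filter (fun j => 0 ≤ j * b ∧ j * b < 0 + P.flatten.length) = J := by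
    rw [Finset.filter_eq_self]
    intro j hj
    have := hJb j hj
    rw [← hw]
    omega
  rw [hfil] at hmain
  have hmass : mass ⌈c * b⌉₊ (w.length + 1) P =
      ((P.map List.length).filter (fun l => ⌈c * b⌉₊ ≤ l)).sum := by
    unfold mass
    congr 1
    apply List.filter_congr
    intro l hl
    obtain ⟨u, hu, rfl⟩ := List.mem_map.1 hl
    have h1 : u.length ≤ w.length := by
      rw [hw, List.length_flatten]
      exact List.single_le_sum (fun _ _ => Nat.zero_le _) _ hl
    have h2 : u.length < w.length + 1 := by omega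
    simp only [h2, and_true]
  rw [hnb, hmass]
  exact hmain

end Pool.Agent.N685.FT
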