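import Pool.Agent.N685.FT.Stm

/-!
PROJECT FT: relation of valid words with the notions of the library, and basic lemmas.
-/

set_option autoImplicit false

namespace Pool.Agent.N685.FT

open Finset Pool.Agent.H377R2.NK

theorem st_spec {e : ℕ} {x : ℤ} (h : (3 : ℤ) ∣ 2 ^ e * x - 1) : 3 * st e x + 1 = 2 ^ e * x := by
  unfold st
  rw [Int.mul_ediv_cancel' h]
  ring

theorem ok_nil (x : ℤ) : ok x [] := trivial

theorem ok_cons (x : ℤ) (e : ℕ) (w : List ℕ) :
    ok x (e :: w) ↔ 1 ≤ e ∧ (3 : ℤ) ∣ 2 ^ e * x - 1 ∧ ok (st e x) w := Iff.rfl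

theorem fin_nil (x : ℤ) : fin x [] = x := rfl

theorem fin_cons (x : ℤ) (e : ℕ) (w : List ℕ) : fin x (e :: w) = fin (st e x) w := rfl

theorem above_nil (c x : ℤ) : above c x [] := trivial

theorem above_cons (c x : ℤ) (e : ℕ) (w : List ℕ) :
    above c x (e :: w) ↔ c < st e x ∧ above c (st e x) w := Iff.rfl

theorem fin_append (x : ℤ) (u v : List ℕ) : fin x (u ++ v) = fin (fin x u) v := by
  induction u generalizing x with
  | nil => rfl
  | cons e u ih => exact ih (st e x)

theorem ok_append (x : ℤ) (u v : List ℕ) : ok x (u ++ v) ↔ ok x u ∧ ok (fin x u) v := by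
  induction u generalizing x with
  | nil => simp [ok_nil, fin_nil]
  | cons e u ih =>
    rw [List.cons_append, ok_cons, ok_cons, fin_cons, ih]
    tauto

theorem above_append (c x : ℤ) (u v : List ℕ) :
    above c x (u ++ v) ↔ above c x u ∧ above c (fin x u) v := by
  induction u generalizing x with
  | nil => simp [above_nil, fin_nil]
  | cons e u ih =>
    rw [List.cons_append, above_cons, above_cons, fin_cons, ih]
    tauto

theorem above_iff (c x : ℤ) (w : List ℕ) :
    above c x w ↔ ∀ i, 0 < i → i ≤ w.length → c < fin x (w.take i) := by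
  induction w generalizing x with
  | nil =>
    refine ⟨fun _ i h1 h2 => ?_, fun _ => above_nil c x⟩
    simp only [List.length_nil] at h2
    omega
  | cons e w ih =>
    rw [above_cons, ih]
    constructor
    · rintro ⟨h1, h2⟩ i hi hi'
      obtain ⟨j, rfl⟩ : ∃ j, i = j + 1 := ⟨i - 1, by omega⟩
      rw [List.take_succ_cons, fin_cons]
      rcases Nat.eq_zero_or_pos j with rfl | hj
      · rw [List.take_zero, fin_nil]
        exact h1
      · refine h2 j hj ?_
        rw [List.length_cons] at hi'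
        omega
    · intro h
      constructor
      · have := h 1 one_pos (by rw [List.length_cons]; omega)
        rw [List.take_succ_cons, fin_cons, List.take_zero, fin_nil] at this
        exact this
      · intro i _ hi'
        have := h (i + 1) (by omega) (by rw [List.length_cons]; omega)
        rw [List.take_succ_cons, fin_cons] at this
        exact this

theorem ok_pos {x : ℤ} {w : List ℕ} (h : ok x w) : ∀ e ∈ w, 1 ≤ e := by
  induction w generalizing x with
  | nil =>
    intro e he
    exact absurd he (List.not_mem_nil)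
  | cons e w ih =>
    intro f hf
    rcases List.mem_cons.1 hf with rfl | hf
    · exact h.1
    · exact ih h.2.2 f hf

theorem st_pos {e : ℕ} {x : ℤ} (hx : 1 ≤ x) (he : 1 ≤ e) (h : (3 : ℤ) ∣ 2 ^ e * x - 1) :
    1 ≤ st e x := by
  have h1 := st_spec h
  have h2 : (2 : ℤ) ≤ 2 ^ e := by
    calc (2 : ℤ) = 2 ^ 1 := by norm_num
      _ ≤ 2 ^ e := pow_le_pow_right₀ (by norm_num) he
  have h3 : (2 : ℤ) ≤ 2 ^ e * x := by nlinarith
  by_contra hcon
  push Not at hcon
  omega

theorem fin_pos {x : ℤ} {w : List ℕ} (hx : 1 ≤ x) (h : ok x w) : 1 ≤ fin x w := by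
  induction w generalizing x with
  | nil => exact hx
  | cons e w ih => exact ih (st_pos hx h.1 h.2.1) h.2.2

theorem wt_append (z : ℝ) (u v : List ℕ) : wt z (u ++ v) = wt z u * wt z v := by
  unfold wt
  rw [List.length_append, List.sum_append, pow_add, pow_add]
  ring

theorem wt_nil (z : ℝ) : wt z [] = 1 := by
  unfold wt
  simp

/-- the exact form of the relation: the endpoint of a valid word -/
theorem fin_spec {x : ℤ} {w : List ℕ} (h : ok x w) :
    (3 : ℤ) ^ w.length * fin x w = 2 ^ w.sum * x - Wp 3 w := by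
  induction w generalizing x with
  | nil => simp [fin_nil, Wp]
  | cons e w ih =>
    have h1 := ih h.2.2
    have h2 := st_spec h.2.1
    rw [fin_cons, List.length_cons, List.sum_cons, Wp, pow_succ, pow_add]
    push_cast
    linear_combination 3 * h1 + 2 ^ w.sum * h2

theorem ok_iff (x : ℤ) (w : List ℕ) :
    ok x w ↔ (∀ e ∈ w, 1 ≤ e) ∧ (3 : ℤ) ^ w.length ∣ 2 ^ w.sum * x - Wp 3 w := by
  constructor
  · intro h
    exact ⟨ok_pos h, ⟨fin x w, (fin_spec h).symm⟩⟩
  · induction w generalizing x with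
    | nil => exact fun _ => ok_nil x
    | cons e w ih =>
      rintro ⟨h1, h2⟩
      rw [List.length_cons, List.sum_cons, Wp, pow_succ, pow_add] at h2
      push_cast at h2
      have h3 : (3 : ℤ) ∣ 2 ^ w.sum * (2 ^ e * x - 1) := by
        have h4 : (3 : ℤ) ∣ 2 ^ e * 2 ^ w.sum * x - (2 ^ w.sum + 3 * (Wp 3 w : ℤ)) :=
          (Dvd.intro_left _ rfl).trans h2
        have e1 : (2 : ℤ) ^ w.sum * (2 ^ e * x - 1) =
            (2 ^ e * 2 ^ w.sum * x - (2 ^ w.sum + 3 * (Wp 3 w : ℤ))) + 3 * (Wp 3 w : ℤ) := by ring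
        rw [e1]
        exact dvd_add h4 (dvd_mul_right _ _)
      have hcop : IsCoprime (3 : ℤ) (2 ^ w.sum) := by
        apply IsCoprime.pow_right
        exact ⟨1, -1, by norm_num⟩
      have h5 : (3 : ℤ) ∣ 2 ^ e * x - 1 := hcop.dvd_of_dvd_mul_left h3
      refine ⟨h1 e (by simp), h5, ih (st e x) ⟨fun f hf => h1 f (by simp [hf]), ?_⟩⟩
      have h6 := st_spec h5
      have e2 : 2 ^ e * 2 ^ w.sum * x - (2 ^ w.sum + 3 * (Wp 3 w : ℤ)) =
          3 * (2 ^ w.sum * st e x - Wp 3 w) := by
        linear_combination (-2 ^ w.sum) * h6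
      rw [e2, mul_comm ((3 : ℤ) ^ w.length)] at h2
      exact Int.dvd_of_mul_dvd_mul_left (by norm_num) h2

/-- **BAS** -/
theorem t_BAS : S_BAS := by
  intro x w
  refine ⟨ok_iff x w, fun h => ?_⟩
  unfold en
  rw [← fin_spec h]
  push_cast
  rw [Int.mul_ediv_cancel_left _ (pow_ne_zero _ (by norm_num))]

end Pool.Agent.N685.FT
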