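import Pool.Agent.N685.FT.Stm

/-! PROJECT FT (helper685): decomposition into stretches and long pieces (`S_BAD → S_DCM`), by helper323. -/

set_option autoImplicit false

namespace Pool.Agent.N685.FT

namespace Dcm

theorem fin_append (x : ℤ) (u v : List ℕ) : fin x (u ++ v) = fin (fin x u) v := by
  induction u generalizing x with
  | nil => rfl
  | cons e u ih => simp only [List.cons_append, fin, ih]

theorem ok_append (x : ℤ) (u v : List ℕ) : ok x (u ++ v) ↔ ok x u ∧ ok (fin x u) v := by
  induction u generalizing x with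
  | nil => simp [ok, fin]
  | cons e u ih => simp only [List.cons_append, ok, fin, ih, and_assoc]

theorem pieces_append (a : ℤ) (P Q : List (List ℕ)) :
    Pieces a (P ++ Q) ↔ Pieces a P ∧ Pieces (fin a P.flatten) Q := by
  induction P generalizing a with
  | nil => simp [Pieces, fin]
  | cons u P ih =>
    simp only [List.cons_append, Pieces, List.flatten_cons, fin_append, ih, and_assoc]

theorem pieces_ok (a : ℤ) (P : List (List ℕ)) (h : Pieces a P) : ok a P.flatten := by
  induction P generalizing a with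
  | nil => simp [ok]
  | cons u P ih =>
    rw [List.flatten_cons, ok_append]
    exact ⟨h.1.2.1, ih _ h.2⟩

theorem pieces_pos (a : ℤ) (P : List (List ℕ)) (h : Pieces a P) : a ≤ fin a P.flatten := by
  induction P generalizing a with
  | nil => simp [fin]
  | cons u P ih =>
    rw [List.flatten_cons, fin_append]
    exact h.1.2.2.1.le.trans (ih _ h.2)

theorem mass_cons (lo hi : ℕ) (u : List ℕ) (P : List (List ℕ)) :
    mass lo hi (u :: P) = (if lo ≤ u.length ∧ u.length < hi then u.length else 0) + mass lo hi P := by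
  unfold mass
  rw [List.map_cons, List.filter_cons]
  split_ifs <;> simp_all

theorem mass_append (lo hi : ℕ) (P Q : List (List ℕ)) :
    mass lo hi (P ++ Q) = mass lo hi P + mass lo hi Q := by
  unfold mass
  rw [List.map_append, List.filter_append, List.sum_append]

theorem mass_le (lo hi Λ : ℕ) (P : List (List ℕ)) (h : ∀ u ∈ P, u.length < Λ) :
    mass lo hi P ≤ mass lo Λ P := by
  induction P with
  | nil => simp [mass]
  | cons u P ih =>
    rw [mass_cons, mass_cons]
    have h1 := h u (by simp)
    have h2 := ih (fun v hv => h v (List.mem_cons_of_mem _ hv))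
    split_ifs <;> omega

end Dcm

open Dcm

theorem t_DCM (h : S_BAD) : S_DCM := by
  intro z hz hz1
  obtain ⟨c, hc0, hc1, hbad⟩ := h z hz hz1
  refine ⟨c, hc0, hc1, ?_⟩
  intro b Λ a P hb ha hP
  have hc : (0 : ℝ) ≤ 1 + 1 / c := by positivity
  -- the statement for a stretch of short pieces `P1` followed by `P2`
  have key : ∀ (P2 P1 : List (List ℕ)) (a : ℤ), 1 ≤ a → (∀ u ∈ P1, u.length < Λ) →
      Pieces a (P1 ++ P2) → ∃ β : ℕ, Dec z b Λ a (P1 ++ P2).flatten β ∧
        ((b * β : ℕ) : ℝ) ≤ (1 + 1 / c) * mass ⌈c * b⌉₊ Λ (P1 ++ P2) := by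
    intro P2
    induction P2 with
    | nil =>
      intro P1 a ha hl hp
      rw [List.append_nil] at hp ⊢
      refine ⟨nb z b P1.flatten, Dec.stretch a _ (pieces_ok a P1 hp), ?_⟩
      refine (hbad b a P1 hb ha hp).trans ?_
      apply mul_le_mul_of_nonneg_left _ hc
      exact_mod_cast mass_le _ _ Λ P1 hl
    | cons v P2 ih =>
      intro P1 a ha hl hp
      by_cases hv : v.length < Λ
      · have e : P1 ++ v :: P2 = (P1 ++ [v]) ++ P2 := by simp
        rw [e] at hp ⊢
        refine ih (P1 ++ [v]) a ha ?_ hp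
        intro u hu
        rcases List.mem_append.1 hu with hu | hu
        · exact hl u hu
        · rw [List.mem_singleton.1 hu]; exact hv
      · push Not at hv
        rw [pieces_append] at hp
        obtain ⟨hp1, hpv, hp2⟩ := hp
        have h1 : 1 ≤ fin a P1.flatten := ha.trans (pieces_pos a P1 hp1)
        have h2 : 1 ≤ fin (fin a P1.flatten) v := h1.trans hpv.2.2.1.le
        obtain ⟨β, hD, hβ⟩ := ih [] _ h2 (by simp) (by simpa using hp2)
        rw [List.nil_append] at hD hβ
        refine ⟨nb z b P1.flatten + β, ?_, ?_⟩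
        · have e : (P1 ++ v :: P2).flatten = P1.flatten ++ (v ++ P2.flatten) := by simp
          rw [e]
          refine Dec.cons a P1.flatten v P2.flatten β (pieces_ok a P1 hp1) hv h1 hpv ?_
          rw [fin_append]
          exact hD
        · have h3 : ((b * nb z b P1.flatten : ℕ) : ℝ) ≤ (1 + 1 / c) * mass ⌈c * b⌉₊ Λ P1 := by
            refine (hbad b a P1 hb ha hp1).trans ?_
            apply mul_le_mul_of_nonneg_left _ hc
            exact_mod_cast mass_le _ _ Λ P1 hl
          have h4 : mass ⌈c * b⌉₊ Λ P1 + mass ⌈c * b⌉₊ Λ P2 ≤ mass ⌈c * b⌉₊ Λ (P1 ++ v :: P2) := by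
            rw [mass_append, mass_cons]
            omega
          have h5 : (mass ⌈c * b⌉₊ Λ P1 : ℝ) + mass ⌈c * b⌉₊ Λ P2 ≤
              mass ⌈c * b⌉₊ Λ (P1 ++ v :: P2) := by exact_mod_cast h4
          calc ((b * (nb z b P1.flatten + β) : ℕ) : ℝ)
              = ((b * nb z b P1.flatten : ℕ) : ℝ) + ((b * β : ℕ) : ℝ) := by push_cast; ring
            _ ≤ (1 + 1 / c) * mass ⌈c * b⌉₊ Λ P1 + (1 + 1 / c) * mass ⌈c * b⌉₊ Λ P2 :=
                add_le_add h3 hβ
            _ = (1 + 1 / c) * ((mass ⌈c * b⌉₊ Λ P1 : ℝ) + mass ⌈c * b⌉₊ Λ P2) := by ring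
            _ ≤ _ := mul_le_mul_of_nonneg_left h5 hc
  simpa using key P [] a ha (by simp) (by simpa using hP)

end Pool.Agent.N685.FT
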