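import Pool.Agent.N685.FT.Stm

/-!
# (PC) the number of the pieces from `a` of given length and sum
-/

set_option autoImplicit false

namespace Pool.Agent.N685.FT

open Finset Pool.Agent.H377R2.NK

namespace PC

lemma ok_pos : ∀ (w : List ℕ) (x : ℤ), ok x w → ∀ e ∈ w, 1 ≤ e
  | [], _, _, e, he => absurd he (by simp)
  | e' :: w, x, h, e, he => by
      rcases List.mem_cons.1 he with h' | h'
      · rw [h']; exact h.1
      · exact ok_pos w _ h.2.2 e h'

lemma st_eq {e : ℕ} {x : ℤ} (h : (3 : ℤ) ∣ 2 ^ e * x - 1) : 2 ^ e * x = 3 * st e x + 1 := by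
  unfold st
  rw [Int.mul_ediv_cancel' h]
  ring

lemma fin_eq : ∀ (w : List ℕ) (x : ℤ), ok x w →
    2 ^ w.sum * x = 3 ^ w.length * fin x w + (Wp 3 w : ℤ)
  | [], x, _ => by simp [fin, Wp]
  | e :: w, x, h => by
      have h1 := st_eq h.2.1
      have h2 := fin_eq w _ h.2.2
      rw [List.sum_cons, List.length_cons, pow_add, pow_succ, Wp, fin]
      push_cast
      linear_combination (2 : ℤ) ^ w.sum * h1 + 3 * h2

lemma Wp_pos {w : List ℕ} (h : w ≠ []) : 1 ≤ Wp 3 w := by
  cases w with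
  | nil => exact absurd rfl h
  | cons e w =>
    rw [Wp]
    have : 1 ≤ 2 ^ w.sum := Nat.one_le_two_pow
    omega

lemma grow (b : ℤ) (hb : 1 ≤ b) : ∀ (w : List ℕ) (x : ℤ), ok x w →
    (∀ i, 0 < i → i ≤ w.length → b ≤ fin x (w.take i)) →
    (2 : ℝ) ^ w.sum * x ≤ 3 ^ w.length * fin x w * (1 + 1 / (3 * b)) ^ w.length
  | [], x, _, _ => by simp [fin]
  | e :: w, x, h, hp => by
      have hb0 : (1 : ℝ) ≤ b := by exact_mod_cast hb
      have h1 := st_eq h.2.1
      have h2 := grow b hb w (st e x) h.2.2 (fun i hi hil => by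
        have h3 := hp (i + 1) (Nat.succ_pos i) (by simpa using hil)
        rwa [List.take_succ_cons, fin] at h3)
      have h3 : b ≤ st e x := by
        have h4 := hp 1 one_pos (by simp)
        simpa [fin] using h4
      have h3' : (b : ℝ) ≤ st e x := by exact_mod_cast h3
      have h1' : (2 : ℝ) ^ e * x = 3 * st e x + 1 := by exact_mod_cast h1
      have h5 : (2 : ℝ) ^ e * x ≤ 3 * st e x * (1 + 1 / (3 * b)) := by
        rw [h1']
        have h6 : 1 ≤ (3 * (st e x : ℝ)) * (1 / (3 * b)) := by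
          rw [mul_one_div, le_div_iff₀ (by linarith)]
          linarith
        linarith
      rw [List.sum_cons, List.length_cons, pow_add, fin]
      calc (2 : ℝ) ^ e * 2 ^ w.sum * x = 2 ^ w.sum * (2 ^ e * x) := by ring
        _ ≤ 2 ^ w.sum * (3 * st e x * (1 + 1 / (3 * b))) :=
            mul_le_mul_of_nonneg_left h5 (by positivity)
        _ = (2 ^ w.sum * st e x) * (3 * (1 + 1 / (3 * b))) := by ring
        _ ≤ (3 ^ w.length * fin (st e x) w * (1 + 1 / (3 * b)) ^ w.length) *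
              (3 * (1 + 1 / (3 * b))) := mul_le_mul_of_nonneg_right h2 (by positivity)
        _ = _ := by rw [pow_succ, pow_succ]; ring

/-- the endpoints -/
lemma range_end {a : ℤ} {w : List ℕ} (ha : 1 ≤ a) (hw : Piece a w) :
    1 ≤ fin a w ∧ (fin a w : ℝ) < 2 ^ w.sum * a / 3 ^ w.length ∧
      ((w.length : ℤ) ≤ fin a w → 2 ^ w.sum * a / 3 ^ w.length - (w.length : ℝ) / 2 ≤ fin a w) := by
  obtain ⟨hne, hok, hlt, hmin⟩ := hw
  have hb : 1 ≤ fin a w := by omega
  have hb0 : (1 : ℝ) ≤ fin a w := by exact_mod_cast hb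
  have h3 : (0 : ℝ) < 3 ^ w.length := by positivity
  refine ⟨hb, ?_, fun hl => ?_⟩
  · rw [lt_div_iff₀ h3]
    have h1 := fin_eq w a hok
    have h2 := Wp_pos hne
    have h4 : (2 : ℝ) ^ w.sum * a = 3 ^ w.length * fin a w + (Wp 3 w : ℝ) := by exact_mod_cast h1
    have h5 : (1 : ℝ) ≤ Wp 3 w := by exact_mod_cast h2
    rw [h4]
    linarith
  · have hg := grow (fin a w) hb w a hok hmin
    set b : ℝ := (fin a w : ℝ) with hbdef
    set l : ℕ := w.length with hldef
    set B : ℝ := 2 ^ w.sum * a / 3 ^ l with hB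
    have hl' : (l : ℝ) ≤ b := by rw [hbdef]; exact_mod_cast hl
    have hB1 : B ≤ b * (1 + 1 / (3 * b)) ^ l := by
      rw [hB, div_le_iff₀ h3]
      linarith
    have hu : 0 < 1 / (3 * b) := by positivity
    have hu1 : 1 / (3 * b) ≤ 1 / 3 := by
      apply one_div_le_one_div_of_le (by norm_num)
      linarith
    have hbern : 1 - (l : ℝ) * (1 / (3 * b)) ≤ (1 - 1 / (3 * b)) ^ l := by
      have h1 := one_add_mul_le_pow (a := -(1 / (3 * b))) (by linarith) l
      calc 1 - (l : ℝ) * (1 / (3 * b)) = 1 + l * -(1 / (3 * b)) := by ring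
        _ ≤ (1 + -(1 / (3 * b))) ^ l := h1
        _ = _ := by rw [← sub_eq_add_neg]
    have hB0 : 0 < B := by
      rw [hB]
      have : (1 : ℝ) ≤ a := by exact_mod_cast ha
      positivity
    have h6 : B * (1 - 1 / (3 * b)) ^ l ≤ b := by
      calc B * (1 - 1 / (3 * b)) ^ l ≤ (b * (1 + 1 / (3 * b)) ^ l) * (1 - 1 / (3 * b)) ^ l := by
            refine mul_le_mul_of_nonneg_right hB1 (pow_nonneg (by linarith) _)
        _ = b * ((1 + 1 / (3 * b)) * (1 - 1 / (3 * b))) ^ l := by rw [mul_pow]; ring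
        _ ≤ b * 1 := by
            refine mul_le_mul_of_nonneg_left (pow_le_one₀ ?_ ?_) (by linarith)
            · exact mul_nonneg (by linarith) (by linarith)
            · nlinarith
        _ = b := mul_one b
    have h7 : B * (1 - (l : ℝ) * (1 / (3 * b))) ≤ b :=
      (mul_le_mul_of_nonneg_left hbern hB0.le).trans h6
    have h8 : (l : ℝ) * (1 / (3 * b)) ≤ 1 / 3 := by
      rw [mul_one_div, div_le_iff₀ (by linarith)]
      linarith
    have h9 : B ≤ 3 / 2 * b := by nlinarith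
    have h10 : B * ((l : ℝ) * (1 / (3 * b))) ≤ l / 2 := by
      calc B * ((l : ℝ) * (1 / (3 * b))) ≤ (3 / 2 * b) * ((l : ℝ) * (1 / (3 * b))) :=
            mul_le_mul_of_nonneg_right h9 (by positivity)
        _ = l / 2 := by field_simp
    linarith

end PC

open PC in
/-- **(PC)** -/
theorem t_PC : S_PC := by
  intro a l s S ha hl hS
  classical
  -- the endpoints determine the words
  have hinj : Set.InjOn (fin a) (S : Set (List ℕ)) := by
    intro u hu v hv huv
    obtain ⟨hu1, hu2, hu3⟩ := hS u hu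
    obtain ⟨hv1, hv2, hv3⟩ := hS v hv
    have h1 := fin_eq u a hu3.2.1
    have h2 := fin_eq v a hv3.2.1
    rw [hu1, hu2, huv] at h1
    rw [hv1, hv2] at h2
    have h3 : (Wp 3 u : ℤ) = Wp 3 v := by linarith
    exact Wp_inj (p := 3) (by decide) (ok_pos u a hu3.2.1) (ok_pos v a hv3.2.1) (by rw [hu1, hv1])
      (by rw [hu2, hv2]) (by exact_mod_cast h3)
  rw [← card_image_of_injOn hinj]
  set B : ℝ := 2 ^ s * a / 3 ^ l with hB
  set c : ℤ := ⌈B - (l : ℝ) / 2⌉ with hc
  have hsub : S.image (fin a) ⊆ Ico 1 (l : ℤ) ∪ Ico c (c + l) := by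
    intro b hb
    rw [mem_image] at hb
    obtain ⟨w, hw, rfl⟩ := hb
    obtain ⟨h1, h2, h3⟩ := hS w hw
    obtain ⟨h4, h5, h6⟩ := range_end ha h3
    rw [h1, h2, ← hB] at h5 h6
    rw [mem_union, mem_Ico, mem_Ico]
    rcases lt_or_ge (fin a w) (l : ℤ) with h7 | h7
    · exact Or.inl ⟨h4, h7⟩
    · right
      have h8 := h6 h7
      refine ⟨Int.ceil_le.2 h8, ?_⟩
      have h9 : B - (l : ℝ) / 2 ≤ c := Int.le_ceil _
      have h10 : (fin a w : ℝ) < ((c + l : ℤ) : ℝ) := by
        push_cast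
        have : (0 : ℝ) ≤ l := Nat.cast_nonneg l
        linarith
      exact_mod_cast h10
  refine (card_le_card hsub).trans ((card_union_le _ _).trans ?_)
  rw [Int.card_Ico, Int.card_Ico]
  omega

end Pool.Agent.N685.FT
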