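import Pool.Agent.N685.FT.Stm

/-!
# Project FT (helper685), PW (helper803): the total weight of the pieces of given length
-/

set_option autoImplicit false

namespace Pool.Agent.N685.FT

namespace PW

open Finset

/-- the endpoint of a valid word -/
theorem fin_le : ∀ (w : List ℕ) (x : ℤ), ok x w →
    (3 : ℤ) ^ w.length * FT.fin x w ≤ 2 ^ w.sum * x
  | [], x, _ => by
    show (3 : ℤ) ^ 0 * x ≤ 2 ^ 0 * x
    simp
  | e :: w, x, h => by
    obtain ⟨h1, h2, h3⟩ := h
    have ih := fin_le w (st e x) h3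
    have h4 : 3 * st e x = 2 ^ e * x - 1 := Int.mul_ediv_cancel' h2
    show (3 : ℤ) ^ (w.length + 1) * FT.fin (st e x) w ≤ 2 ^ (e :: w).sum * x
    rw [List.sum_cons, pow_add 2 e w.sum, pow_succ 3 w.length]
    have h5 : (3 : ℤ) ^ w.length * 3 * FT.fin (st e x) w ≤ 3 * (2 ^ w.sum * st e x) := by
      calc (3 : ℤ) ^ w.length * 3 * FT.fin (st e x) w
          = 3 * (3 ^ w.length * FT.fin (st e x) w) := by ring
        _ ≤ 3 * (2 ^ w.sum * st e x) := by linarith
    have h6 : 3 * (2 ^ w.sum * st e x) = 2 ^ w.sum * (2 ^ e * x - 1) := by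
      rw [← h4]
      ring
    have h7 : (0 : ℤ) < 2 ^ w.sum := by positivity
    nlinarith

/-- the sum of the letters of a piece is large -/
theorem piece_pow {a : ℤ} {w : List ℕ} (ha : 1 ≤ a) (h : Piece a w) :
    3 ^ w.length < 2 ^ w.sum := by
  obtain ⟨-, h2, h3, -⟩ := h
  have h4 := fin_le w a h2
  have h5 : (3 : ℤ) ^ w.length * a < 2 ^ w.sum * a := by
    refine lt_of_lt_of_le ?_ h4
    exact mul_lt_mul_of_pos_left h3 (by positivity)
  have h6 : (3 : ℤ) ^ w.length < 2 ^ w.sum := lt_of_mul_lt_mul_right h5 (by linarith)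
  exact_mod_cast h6

/-- a finite geometric sum -/
theorem geom_le {z : ℝ} (h0 : 0 < z) (h1 : z < 1) (s0 : ℕ) (I : Finset ℕ) (hI : ∀ s ∈ I, s0 ≤ s) :
    ∑ s ∈ I, z ^ s ≤ z ^ s0 / (1 - z) := by
  have e1 : ∑ s ∈ I, z ^ s = z ^ s0 * ∑ s ∈ I, z ^ (s - s0) := by
    rw [Finset.mul_sum]
    refine Finset.sum_congr rfl fun s hs => ?_
    rw [← pow_add, Nat.add_sub_cancel' (hI s hs)]
  have e2 : ∑ s ∈ I, z ^ (s - s0) = ∑ n ∈ I.image (fun s => s - s0), z ^ n := by
    rw [Finset.sum_image]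
    intro s hs t ht hst
    have h3 := hI s hs
    have h4 := hI t ht
    simp only at hst
    omega
  have e3 : ∑ n ∈ I.image (fun s => s - s0), z ^ n ≤ (1 - z)⁻¹ := by
    rw [← tsum_geometric_of_lt_one h0.le h1]
    exact (summable_geometric_of_lt_one h0.le h1).sum_le_tsum _ fun n _ => by positivity
  rw [e1, e2, div_eq_mul_inv]
  exact mul_le_mul_of_nonneg_left e3 (by positivity)

end PW

theorem log3_lt : Real.log 3 < 2 * Real.log 2 := by
  have h1 : Real.log 3 < Real.log 4 := Real.log_lt_log (by norm_num) (by norm_num)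
  have h2 : Real.log 4 = 2 * Real.log 2 := by
    rw [show (4 : ℝ) = 2 ^ 2 by norm_num, Real.log_pow]
    norm_num
  linarith

theorem tt_pos {z : ℝ} (h0 : 0 < z) (h1 : z < 1) : 0 < tt z := by
  unfold tt
  have : 0 < 1 - z := by linarith
  positivity

/-- the exponential rate of the weights of the pieces is negative -/
theorem q_lt_one {z : ℝ} (h0 : 1 / 2 < z) (h1 : z < 1) :
    Real.log (tt z) * Real.log 2 < Real.log 3 * Real.log (1 / z) := by
  have hz : 0 < z := by linarith
  have hz1 : 0 < 1 - z := by linarith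
  have hA : 0 < Real.log 3 - Real.log 2 := by
    have := Real.log_lt_log (by norm_num : (0 : ℝ) < 2) (by norm_num : (2 : ℝ) < 3)
    linarith
  have hB : 0 < Real.log 2 := Real.log_pos (by norm_num)
  have e1 : Real.log (tt z) = Real.log 3 + Real.log (1 - z) - Real.log z := by
    unfold tt
    rw [Real.log_div (by positivity) hz.ne', Real.log_mul (by norm_num) hz1.ne']
  have e2 : Real.log (1 / z) = -Real.log z := by
    rw [one_div, Real.log_inv]
  have h2 : Real.log 2 + Real.log z ≤ 2 * z - 1 := by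
    rw [← Real.log_mul (by norm_num) hz.ne']
    exact Real.log_le_sub_one_of_pos (by positivity)
  have h3 : Real.log 2 + Real.log (1 - z) ≤ 2 * (1 - z) - 1 := by
    rw [← Real.log_mul (by norm_num) hz1.ne']
    exact Real.log_le_sub_one_of_pos (by positivity)
  have h4 := log3_lt
  have h5 := mul_le_mul_of_nonneg_left h2 hA.le
  have h6 := mul_le_mul_of_nonneg_left h3 hB.le
  have h7 : 0 < (2 * Real.log 2 - Real.log 3) * (2 * z - 1) :=
    mul_pos (by linarith) (by linarith)
  rw [e1, e2]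
  nlinarith

theorem t_PW (h : S_PC) : S_PW := by
  intro z h0 h1
  have hz : 0 < z := by linarith
  have hz1 : 0 < 1 - z := by linarith
  have hL2 : 0 < Real.log 2 := Real.log_pos (by norm_num)
  have hL3 : 0 < Real.log 3 := Real.log_pos (by norm_num)
  have hLz : 0 < Real.log (1 / z) := Real.log_pos (by rw [lt_div_iff₀ hz]; linarith)
  have htt := tt_pos hz h1
  obtain ⟨c, hc⟩ : ∃ c, c = Real.log 3 * Real.log (1 / z) / Real.log 2 - Real.log (tt z) :=
    ⟨_, rfl⟩
  have hc0 : 0 < c := by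
    have h2 := q_lt_one h0 h1
    rw [hc, sub_pos, lt_div_iff₀ hL2]
    exact h2
  refine ⟨c / 2, 3 / (1 - z) * (2 / c), by positivity, by positivity, ?_⟩
  intro l a S hl ha hS
  -- the least sum
  have hex : ∃ s, 3 ^ l < 2 ^ s := ⟨2 * l, by
    rw [pow_mul]
    exact Nat.pow_lt_pow_left (by norm_num) (by omega)⟩
  obtain ⟨s0, hs0, hs0m⟩ : ∃ s0, 3 ^ l < 2 ^ s0 ∧ ∀ s, 3 ^ l < 2 ^ s → s0 ≤ s := by
    classical
    exact ⟨Nat.find hex, Nat.find_spec hex, fun s hs => Nat.find_min' hex hs⟩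
  have e1 : ∑ w ∈ S, wt z w = tt z ^ l * ∑ w ∈ S, z ^ w.sum := by
    rw [Finset.mul_sum]
    refine Finset.sum_congr rfl fun w hw => ?_
    unfold wt
    rw [(hS w hw).1]
  have e2 : ∑ w ∈ S, z ^ w.sum ≤ 3 * l * ∑ s ∈ S.image List.sum, z ^ s := by
    rw [Finset.sum_comp (fun s => z ^ s) List.sum, Finset.mul_sum]
    refine Finset.sum_le_sum fun s _ => ?_
    rw [nsmul_eq_mul]
    refine mul_le_mul_of_nonneg_right ?_ (by positivity)
    have h3 := h a l s (S.filter fun w => w.sum = s) ha hl (by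
      intro w hw
      rw [Finset.mem_filter] at hw
      exact ⟨(hS w hw.1).1, hw.2, (hS w hw.1).2⟩)
    exact_mod_cast h3
  have e3 : ∑ s ∈ S.image List.sum, z ^ s ≤ z ^ s0 / (1 - z) := by
    refine PW.geom_le hz h1 s0 _ fun s hs => ?_
    obtain ⟨w, hw, rfl⟩ := Finset.mem_image.1 hs
    have h4 := PW.piece_pow ha (hS w hw).2
    rw [(hS w hw).1] at h4
    exact hs0m _ h4
  have e4 : z ^ s0 ≤ Real.exp (-(l * (Real.log 3 * Real.log (1 / z) / Real.log 2))) := by
    rw [← Real.exp_log (pow_pos hz s0), Real.exp_le_exp, Real.log_pow]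
    have h5 : (l : ℝ) * Real.log 3 ≤ s0 * Real.log 2 := by
      rw [← Real.log_pow, ← Real.log_pow]
      refine Real.log_le_log (by positivity) ?_
      exact_mod_cast hs0.le
    have h6 : Real.log z = -Real.log (1 / z) := by
      rw [one_div, Real.log_inv, neg_neg]
    rw [h6]
    have h7 : (l : ℝ) * (Real.log 3 * Real.log (1 / z) / Real.log 2) ≤ s0 * Real.log (1 / z) := by
      rw [← mul_div_assoc, div_le_iff₀ hL2]
      nlinarith
    linarith
  have e5 : tt z ^ l = Real.exp (l * Real.log (tt z)) := by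
    rw [← Real.log_pow, Real.exp_log (pow_pos htt l)]
  have e6 : (l : ℝ) ≤ 2 / c * Real.exp (c / 2 * l) := by
    have h8 := Real.add_one_le_exp (c / 2 * l)
    have h9 : (l : ℝ) = 2 / c * (c / 2 * l) := by field_simp
    calc (l : ℝ) = 2 / c * (c / 2 * l) := h9
      _ ≤ 2 / c * Real.exp (c / 2 * l) :=
        mul_le_mul_of_nonneg_left (by linarith) (by positivity)
  have e7 : Real.exp (l * Real.log (tt z)) *
      Real.exp (-(l * (Real.log 3 * Real.log (1 / z) / Real.log 2))) = Real.exp (-(c * l)) := by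
    rw [← Real.exp_add, hc]
    congr 1
    ring
  calc ∑ w ∈ S, wt z w = tt z ^ l * ∑ w ∈ S, z ^ w.sum := e1
    _ ≤ tt z ^ l * (3 * l * (z ^ s0 / (1 - z))) := by
        refine mul_le_mul_of_nonneg_left (e2.trans ?_) (by positivity)
        exact mul_le_mul_of_nonneg_left e3 (by positivity)
    _ ≤ tt z ^ l * (3 * l * (Real.exp (-(l * (Real.log 3 * Real.log (1 / z) / Real.log 2))) /
          (1 - z))) := by gcongr
    _ = 3 / (1 - z) * l * Real.exp (-(c * l)) := by
        rw [← e7, e5]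
        ring
    _ ≤ 3 / (1 - z) * (2 / c * Real.exp (c / 2 * l)) * Real.exp (-(c * l)) := by gcongr
    _ = 3 / (1 - z) * (2 / c) * Real.exp (-(c / 2 * l)) := by
        rw [show -(c / 2 * (l : ℝ)) = c / 2 * l + -(c * l) by ring, Real.exp_add]
        ring

end Pool.Agent.N685.FT
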