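import Pool.Agent.N685.FT.Stm

/-!
PROJECT FT (helper685), task FT/REC: decomposition of a path at its records (the last times of the
smallest values).  Written by helper170.
-/

set_option autoImplicit false

namespace Pool.Agent.N685.FT

namespace Rec

lemma fin_append (x : ℤ) (u v : List ℕ) : fin x (u ++ v) = fin (fin x u) v := by
  induction u generalizing x with
  | nil => rfl
  | cons e u ih => simpa [fin] using ih (st e x)

lemma ok_append (x : ℤ) (u v : List ℕ) : ok x (u ++ v) ↔ ok x u ∧ ok (fin x u) v := by
  induction u generalizing x with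
  | nil => simp [ok, fin]
  | cons e u ih => simp [ok, fin, ih, and_assoc]

lemma above_iff (c x : ℤ) (w : List ℕ) :
    above c x w ↔ ∀ i, 0 < i → i ≤ w.length → c < fin x (w.take i) := by
  induction w generalizing x with
  | nil =>
    simp only [above, true_iff, List.length_nil]
    intro i h1 h2
    omega
  | cons e w ih =>
    simp only [above, ih, List.length_cons]
    constructor
    · rintro ⟨h1, h2⟩ i hi hi2
      obtain ⟨j, rfl⟩ : ∃ j, i = j + 1 := ⟨i - 1, by omega⟩
      simp only [List.take_succ_cons, fin]
      rcases Nat.eq_zero_or_pos j with rfl | hj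
      · simpa [fin] using h1
      · exact h2 j hj (by omega)
    · intro h
      refine ⟨by simpa [fin] using h 1 one_pos (by omega), fun i hi hi2 => ?_⟩
      simpa [fin] using h (i + 1) (by omega) (by omega)

theorem aux (n : ℕ) : ∀ w : List ℕ, w.length ≤ n → ∀ a : ℤ, ok a w → above a a w →
    ∃ P : List (List ℕ), P.flatten = w ∧ Pieces a P := by
  induction n with
  | zero =>
    intro w hw a _ _
    have : w = [] := List.length_eq_zero_iff.1 (by omega)
    exact ⟨[], by simp [this], trivial⟩
  | succ n ih =>
    intro w hw a hok hab
    rcases Nat.eq_zero_or_pos w.length with h0 | h0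
    · have : w = [] := List.length_eq_zero_iff.1 h0
      exact ⟨[], by simp [this], trivial⟩
    rw [above_iff] at hab
    -- the last index of the minimum
    obtain ⟨i0, hi0, hmin⟩ := Finset.exists_min_image (Finset.Icc 1 w.length)
      (fun i => fin a (w.take i)) ⟨1, by simp; omega⟩
    obtain ⟨r, hr, hmax⟩ := Finset.exists_max_image
      ((Finset.Icc 1 w.length).filter fun i => fin a (w.take i) = fin a (w.take i0))
      (fun i => i) ⟨i0, by simpa using hi0⟩
    simp only [Finset.mem_filter, Finset.mem_Icc] at hr hmax hmin hi0
    obtain ⟨⟨hr1, hr2⟩, hr3⟩ := hr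
    have hmin' : ∀ i, 1 ≤ i → i ≤ w.length → fin a (w.take r) ≤ fin a (w.take i) := by
      intro i h1 h2
      rw [hr3]
      exact hmin i ⟨h1, h2⟩
    have hlast : ∀ i, r < i → i ≤ w.length → fin a (w.take r) < fin a (w.take i) := by
      intro i h1 h2
      refine lt_of_le_of_ne (hmin' i (by omega) h2) fun h => ?_
      have := hmax i ⟨⟨by omega, h2⟩, by rw [← h, hr3]⟩
      omega
    have hsplit : ok a (w.take r ++ w.drop r) := by rwa [List.take_append_drop]
    rw [ok_append] at hsplit
    obtain ⟨P, hP1, hP2⟩ := ih (w.drop r) (by rw [List.length_drop]; omega) (fin a (w.take r))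
      hsplit.2 (by
        rw [above_iff]
        intro j hj1 hj2
        rw [List.length_drop] at hj2
        rw [← fin_append, ← List.take_add]
        exact hlast (r + j) (by omega) (by omega))
    refine ⟨w.take r :: P, by simp [hP1], ⟨?_, hsplit.1, hab r hr1 hr2, ?_⟩, hP2⟩
    · intro h
      have := congrArg List.length h
      rw [List.length_take, List.length_nil] at this
      omega
    · intro i h1 h2
      rw [List.length_take] at h2
      rw [List.take_take, min_eq_left (by omega)]
      exact hmin' i h1 (by omega)

end Rec

theorem t_REC : S_REC := fun a w _ h1 h2 => Rec.aux w.length w le_rfl a h1 h2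

end Pool.Agent.N685.FT
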