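import Pool.Agent.N685.FT.SG
import Pool.Agent.N685.FT.Bas
import Pool.Agent.N685.FT.PC
import Pool.Agent.N685.FT.PW
import Pool.Agent.N685.FT.Rec
import Pool.Agent.N685.FT.Bad
import Pool.Agent.N685.FT.Dcm
import Pool.Agent.N685.FT.Ren
import Pool.Agent.N685.FT.GS
import Pool.Agent.N685.FT.Gen

/-! Project FT: assembly of the main bound from the sup law of the project WB. -/

set_option autoImplicit false

namespace Pool.Agent.N685.FT

theorem gen_of (hU : WB.S_UP) : S_GEN :=
  t_GEN t_REC (t_DCM t_BAD) (t_REN (t_GS (t_G t_BAS hU)) t_WT (t_PW t_PC))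

end Pool.Agent.N685.FT
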