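import Pool.Agent.N685.FT.Asm
import Pool.Agent.N685.WB.Asm

/-! Project FT: the main bound, unconditional. -/

set_option autoImplicit false

namespace Pool.Agent.N685.FT

theorem gen_main : S_GEN := gen_of WB.t_UP

end Pool.Agent.N685.FT
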