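import Pool.Agent.N685.FT.Bas
import Pool.Agent.N685.FT.PW
import Pool.Agent.Y966.LD.Main2

/-! Project FT: the joint level sets (total stopping time, number of odd steps). -/

set_option autoImplicit false
set_option linter.unusedVariables false

namespace Pool.Agent.N685.FT

open Finset Pool.Agent.H395R2.G3 Pool.Agent.Y966.LD

/-- the word of a number which reaches `1` -/
theorem exists_code (k : ℕ) : ∀ n : ℕ, IsLeast {j : ℕ | fT^[j] n = 1} k →
    ∃ w : List ℕ, w.length = oN k n ∧ ok 1 w ∧ above 1 1 w ∧ w.sum ≤ k ∧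
      (n : ℤ) = 2 ^ (k - w.sum) * fin 1 w := by
  induction k with
  | zero =>
    intro n hn
    have h1 : n = 1 := hn.1
    subst h1
    exact ⟨[], by simp [oN_zero], ok_nil 1, above_nil 1 1, by simp, by simp [fin_nil]⟩
  | succ k ih =>
    intro n hn
    have hn1 := pos_of_least hn
    have hne : n ≠ 1 := by
      intro h
      have := hn.2 (show (0 : ℕ) ∈ {j : ℕ | fT^[j] n = 1} from h)
      omega
    have hm : IsLeast {j : ℕ | fT^[j] (fT n) = 1} k := by
      constructor
      · have := hn.1
        rwa [Set.mem_ofPred_eq, Function.iterate_succ_apply] at this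
      · intro j hj
        have h2 : fT^[j + 1] n = 1 := by
          rw [Function.iterate_succ_apply]
          exact hj
        have := hn.2 h2
        omega
    obtain ⟨w, hl, hok, hab, hs, he⟩ := ih (fT n) hm
    rcases Nat.mod_two_eq_zero_or_one n with hpar | hpar
    · refine ⟨w, ?_, hok, hab, by omega, ?_⟩
      · rw [oN_succ', if_neg (by omega), zero_add]
        exact hl
      · have h2 : 2 * fT n = n := by
          unfold fT
          rw [if_pos hpar]
          omega
        have h2' : 2 * ((fT n : ℕ) : ℤ) = n := by exact_mod_cast h2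
        have e : k + 1 - w.sum = (k - w.sum) + 1 := by omega
        rw [← h2', he, e, pow_succ]
        ring
    · have h2 : 2 * fT n = 3 * n + 1 := by
        unfold fT
        rw [if_neg (by omega)]
        omega
      have h2' : 2 * ((fT n : ℕ) : ℤ) = 3 * n + 1 := by exact_mod_cast h2
      have e : k + 1 - w.sum = (k - w.sum) + 1 := by omega
      have h3 : (2 : ℤ) ^ (k + 1 - w.sum) * fin 1 w = 3 * n + 1 := by
        rw [← h2', he, e, pow_succ]
        ring
      have h4 : (2 : ℤ) ^ (k + 1 - w.sum) * fin 1 w - 1 = 3 * n := by rw [h3]; ring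
      have h5 : st (k + 1 - w.sum) (fin 1 w) = n := by
        unfold st
        rw [h4]
        exact Int.mul_ediv_cancel_left _ (by norm_num)
      refine ⟨w ++ [k + 1 - w.sum], ?_, ?_, ?_, ?_, ?_⟩
      · rw [List.length_append, hl, oN_succ', if_pos hpar]
        simp
        omega
      · rw [ok_append]
        refine ⟨hok, ?_⟩
        rw [ok_cons]
        exact ⟨by omega, by rw [h4]; exact dvd_mul_right _ _, ok_nil _⟩
      · rw [above_append]
        refine ⟨hab, ?_⟩
        rw [above_cons, h5]
        exact ⟨by exact_mod_cast (by omega : 1 < n), above_nil _ _⟩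
      · rw [List.sum_append]
        simp
        omega
      · rw [fin_append, fin_cons, fin_nil, h5, List.sum_append]
        have : k + 1 - (w.sum + [k + 1 - w.sum].sum) = 0 := by simp; omega
        rw [this, pow_zero, one_mul]

/-- upper bound for the joint level sets -/
theorem lv_upper (hG : S_GEN) {z : ℝ} (h0 : 1 / 2 < z) (h1 : z < 1) {ε : ℝ} (hε : 0 < ε) :
    ∃ C : ℝ, 0 < C ∧ ∀ (k o : ℕ),
      ((Lv k o).ncard : ℝ) ≤ C * Real.exp (ε * k + k * (-Real.log z) +
        o * (-Real.log (3 * (1 - z) / z))) := by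
  classical
  obtain ⟨C, hC, hup⟩ := hG z h0 h1 ε hε
  refine ⟨C, hC, fun k o => ?_⟩
  have hz0 : 0 < z := by linarith
  have hth0 : 0 < tt z := tt_pos hz0 h1
  have hfin := (Lv_fin k o).1
  have hcode : ∀ n : ℕ, ∃ w : List ℕ, n ∈ Lv k o → w.length = o ∧ ok 1 w ∧ above 1 1 w ∧
      w.sum ≤ k ∧ (n : ℤ) = 2 ^ (k - w.sum) * fin 1 w := by
    intro n
    by_cases hn : n ∈ Lv k o
    · obtain ⟨w, hw⟩ := exists_code k n hn.2.1
      refine ⟨w, fun _ => ?_⟩
      have := hn.2.2
      rw [this] at hw
      exact hw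
    · exact ⟨[], fun h => absurd h hn⟩
  choose c hc using hcode
  set F : Finset ℕ := hfin.toFinset with hF
  have hmem : ∀ n ∈ F, n ∈ Lv k o := fun n hn => hfin.mem_toFinset.1 hn
  have hinj : Set.InjOn c (F : Set ℕ) := by
    intro n hn m hm h
    have h1 := hc n (hmem n hn)
    have h2 := hc m (hmem m hm)
    have h3 : (n : ℤ) = (m : ℤ) := by rw [h1.2.2.2.2, h2.2.2.2.2, h]
    exact_mod_cast h3
  have hsum := hup o 1 (F.image c) le_rfl (by
    intro w hw
    obtain ⟨n, hn, rfl⟩ := mem_image.1 hw
    have h1 := hc n (hmem n hn)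
    exact ⟨h1.1, h1.2.1, h1.2.2.1⟩)
  rw [sum_image hinj] at hsum
  have hterm : ∀ n ∈ F, tt z ^ o * z ^ k ≤ wt z (c n) := by
    intro n hn
    have h1' := hc n (hmem n hn)
    unfold wt
    rw [h1'.1]
    apply mul_le_mul_of_nonneg_left _ (by positivity)
    exact pow_le_pow_of_le_one hz0.le h1.le h1'.2.2.2.1
  have h2 : (F.card : ℝ) * (tt z ^ o * z ^ k) ≤ C * Real.exp (ε * o) := by
    refine le_trans ?_ hsum
    rw [← nsmul_eq_mul, ← sum_const]
    exact sum_le_sum hterm
  have hcard : ((Lv k o).ncard : ℝ) = F.card := by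
    rw [hF, Set.ncard_eq_toFinset_card _ hfin]
  rw [hcard]
  rcases Nat.eq_zero_or_pos F.card with h0' | hpos
  · rw [h0']
    push_cast
    positivity
  -- `o ≤ k`
  have hok : o ≤ k := by
    obtain ⟨n, hn⟩ := Finset.card_pos.1 hpos
    rw [← (hmem n hn).2.2]
    exact oN_le k n
  have h5 : tt z ^ o * z ^ k =
      Real.exp (-(k * (-Real.log z) + o * (-Real.log (3 * (1 - z) / z)))) := by
    have e1 : tt z ^ o = Real.exp (o * Real.log (3 * (1 - z) / z)) := by
      rw [Real.exp_nat_mul, Real.exp_log (show 0 < 3 * (1 - z) / z from hth0)]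
      rfl
    have e2 : z ^ k = Real.exp (k * Real.log z) := by
      rw [Real.exp_nat_mul, Real.exp_log hz0]
    rw [e1, e2, ← Real.exp_add]
    congr 1
    ring
  rw [h5, Real.exp_neg, ← div_eq_mul_inv, div_le_iff₀ (Real.exp_pos _)] at h2
  refine h2.trans ?_
  rw [mul_assoc, ← Real.exp_add]
  apply mul_le_mul_of_nonneg_left _ hC.le
  apply Real.exp_le_exp.2
  have : ε * (o : ℝ) ≤ ε * k := mul_le_mul_of_nonneg_left (by exact_mod_cast hok) hε.le
  linarith

end Pool.Agent.N685.FT
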