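import Pool.Agent.N685.FT.Main1
import Pool.Agent.Y966.LD.Main2

/-! Project FT: the level sets of the total stopping time (compare `Pool/Agent/Y966/LD/Main2.lean`). -/

set_option autoImplicit false
set_option linter.unusedVariables false

namespace Pool.Agent.N685.FT

open Finset Filter Topology Pool.Agent.H395R2.G3 Pool.Agent.Y966.LD

/-- the general upper bound -/
theorem core2 (hG : S_GEN) {ρ z : ℝ} (h0 : 1 / 2 < z) (h1 : z < 1) {c₀ : ℝ} (hc₀ : 0 ≤ c₀) {ε : ℝ} (hε : 0 < ε) :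
    ∃ k₀ : ℕ, ∀ k : ℕ, k₀ ≤ k → ∀ S : Set ℕ, (∀ n ∈ S, n ∈ Lev k ∧
      (oN k n : ℝ) * (-Real.log (3 * (1 - z) / z)) ≤
        ρ * k * (-Real.log (3 * (1 - z) / z)) + c₀ * Real.log (k + 1)) →
      (S.ncard : ℝ) ≤ Real.exp ((phi ρ z + ε) * k) := by
  obtain ⟨C, hC, hup⟩ := lv_upper hG h0 h1 (show 0 < ε / 3 by positivity)
  obtain ⟨K', hK'0, hK'⟩ := log_lin (show 0 < ε / (3 * (1 + c₀)) by positivity)
  obtain ⟨k₀, hk₀⟩ := exists_nat_ge (3 * ((1 + c₀) * K' + |Real.log C|) / ε)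
  refine ⟨k₀, fun k hk S hS => ?_⟩
  have hk' : 3 * ((1 + c₀) * K' + |Real.log C|) / ε ≤ k := hk₀.trans (by exact_mod_cast hk)
  have hkn : (0 : ℝ) ≤ k := Nat.cast_nonneg k
  set b : ℝ := -Real.log (3 * (1 - z) / z) with hb
  classical
  set F : Finset ℕ := (range (k + 1)).filter fun o =>
    (o : ℝ) * b ≤ ρ * k * b + c₀ * Real.log (k + 1) with hF
  have hcov : ∀ n ∈ S, ∃ o ∈ F, n ∈ Lv k o := by
    intro n hn
    obtain ⟨hn1, hn2⟩ := hS n hn
    refine ⟨oN k n, ?_, mem_Lv_of_lev hn1⟩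
    rw [hF, mem_filter, mem_range]
    exact ⟨by have := oN_le k n; omega, hn2⟩
  have hncard := (ncard_le_sum F (fun o => Lv k o) (fun o _ => (Lv_fin k o).1) S hcov).2
  have hncard' : (S.ncard : ℝ) ≤ ∑ o ∈ F, ((Lv k o).ncard : ℝ) := by exact_mod_cast hncard
  set B : ℝ := C * Real.exp (ε / 3 * k + k * (-Real.log z) + (ρ * k * b + c₀ * Real.log (k + 1)))
    with hB
  have hB0 : 0 ≤ B := by positivity
  have hterm : ∀ o ∈ F, ((Lv k o).ncard : ℝ) ≤ B := by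
    intro o ho
    rw [hF, mem_filter, mem_range] at ho
    refine (hup k o).trans ?_
    apply mul_le_mul_of_nonneg_left _ hC.le
    apply Real.exp_le_exp.2
    linarith [ho.2]
  have hsum : ∑ o ∈ F, ((Lv k o).ncard : ℝ) ≤ ((k : ℝ) + 1) * B := by
    calc ∑ o ∈ F, ((Lv k o).ncard : ℝ) ≤ ∑ o ∈ F, B := sum_le_sum hterm
      _ = F.card * B := by rw [sum_const, nsmul_eq_mul]
      _ ≤ ((k : ℝ) + 1) * B := by
          apply mul_le_mul_of_nonneg_right _ hB0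
          have : F.card ≤ k + 1 := by
            refine (card_filter_le _ _).trans ?_
            rw [card_range]
          exact_mod_cast this
  refine hncard'.trans (hsum.trans ?_)
  have hK1 : (0 : ℝ) < (k : ℝ) + 1 := by positivity
  have e1 : ((k : ℝ) + 1) = Real.exp (Real.log ((k : ℝ) + 1)) := (Real.exp_log hK1).symm
  have e2 : C = Real.exp (Real.log C) := (Real.exp_log hC).symm
  have e3 : ((k : ℝ) + 1) * B = Real.exp (Real.log ((k : ℝ) + 1) + (Real.log C +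
      (ε / 3 * k + k * (-Real.log z) + (ρ * k * b + c₀ * Real.log (k + 1))))) := by
    rw [Real.exp_add, Real.exp_add, Real.exp_log hK1, Real.exp_log hC, hB]
  rw [e3]
  apply Real.exp_le_exp.2
  have h10 := hK' k hkn
  have h13 : (1 + c₀) * Real.log ((k : ℝ) + 1) ≤ ε / 3 * k + (1 + c₀) * K' := by
    have h11 : (1 + c₀) * Real.log ((k : ℝ) + 1) ≤ (1 + c₀) * (ε / (3 * (1 + c₀)) * k + K') :=
      mul_le_mul_of_nonneg_left h10 (by positivity)
    have h12 : (1 + c₀) * (ε / (3 * (1 + c₀)) * k + K') = ε / 3 * k + (1 + c₀) * K' := by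
      field_simp
    linarith
  have h15 : (1 + c₀) * K' + |Real.log C| ≤ ε / 3 * k := by
    rw [div_le_iff₀ hε] at hk'
    linarith
  have h16 := le_abs_self (Real.log C)
  have h17 : phi ρ z = -Real.log z + ρ * b := rfl
  rw [h17]
  nlinarith

theorem small_upper (hG : S_GEN) {ρ : ℝ} (h0 : 1 / 4 ≤ ρ) (h1 : ρ ≤ 1 / 2) {ε : ℝ} (hε : 0 < ε) :
    ∃ k₀ : ℕ, ∀ k : ℕ, k₀ ≤ k → ((Small k (Real.log 2 - ρ * Real.log 3)).ncard : ℝ) ≤
      Real.exp ((FF ρ + ε) * k) := by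
  have hl3 : 0 < Real.log 3 := Real.log_pos (by norm_num)
  obtain ⟨z, hz0, hz1, hz2, hz3, _⟩ := exists_z (show 0 < ρ by linarith) h1
    (show 0 < ε / 2 by positivity)
  have hz34 : z ≤ 3 / 4 := hz3 h0
  set b : ℝ := -Real.log (3 * (1 - z) / z) with hb
  have hb0 : b ≤ 0 := by
    have : 0 ≤ Real.log (3 * (1 - z) / z) := by
      apply Real.log_nonneg
      rw [le_div_iff₀ (by linarith)]
      linarith
    linarith
  obtain ⟨k₀, hk₀⟩ := core2 hG (ρ := ρ) hz0 hz1 (c₀ := -b / Real.log 3)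
    (div_nonneg (by linarith) hl3.le) (show 0 < ε / 2 by positivity)
  refine ⟨k₀, fun k hk => (hk₀ k hk _ ?_).trans ?_⟩
  · rintro n ⟨hn1, hn2⟩
    refine ⟨hn1, ?_⟩
    have hkn : (0 : ℝ) ≤ k := Nat.cast_nonneg k
    obtain ⟨hs1, hs2⟩ := log_size (pos_of_least hn1) hn1
    rw [← hb]
    have h5 : Real.log ((oN k n : ℝ) + 1) ≤ Real.log ((k : ℝ) + 1) := by
      apply Real.log_le_log (by positivity)
      have : (oN k n : ℝ) ≤ k := by exact_mod_cast oN_le k n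
      linarith
    have h6 : ρ * k * Real.log 3 - Real.log ((k : ℝ) + 1) ≤ oN k n * Real.log 3 := by linarith
    have h7 : ρ * k - Real.log ((k : ℝ) + 1) / Real.log 3 ≤ oN k n := by
      have : (ρ * k - Real.log ((k : ℝ) + 1) / Real.log 3) * Real.log 3 ≤
          oN k n * Real.log 3 := by
        have e : (ρ * k - Real.log ((k : ℝ) + 1) / Real.log 3) * Real.log 3 =
            ρ * k * Real.log 3 - Real.log ((k : ℝ) + 1) := by
          field_simp
        rw [e]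
        exact h6
      exact le_of_mul_le_mul_right this hl3
    have h8 := mul_le_mul_of_nonpos_right h7 hb0
    have h9 : (ρ * k - Real.log ((k : ℝ) + 1) / Real.log 3) * b =
        ρ * k * b + -b / Real.log 3 * Real.log ((k : ℝ) + 1) := by
      ring
    linarith
  · apply Real.exp_le_exp.2
    apply mul_le_mul_of_nonneg_right _ (Nat.cast_nonneg k)
    linarith

theorem small_lower {ρ : ℝ} (h0 : 1 / 4 ≤ ρ) (h1 : ρ ≤ 1 / 2) {ε : ℝ} (hε : 0 < ε) :
    ∃ k₀ : ℕ, ∀ k : ℕ, k₀ ≤ k → Real.exp ((FF ρ - ε) * k) ≤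
      ((Small k (Real.log 2 - ρ * Real.log 3)).ncard : ℝ) := by
  have hl3 : 0 < Real.log 3 := Real.log_pos (by norm_num)
  have h2 : ∀ᶠ r in 𝓝[>] ρ, FF ρ - ε / 2 < FF r :=
    (FF_cont.continuousAt.mono_left nhdsWithin_le_nhds).eventually (lt_mem_nhds (by linarith))
  have h3 : ∀ᶠ r in 𝓝[>] ρ, r < 4771 / 7833 :=
    (gt_mem_nhds (lt_of_le_of_lt h1 half_lt)).filter_mono nhdsWithin_le_nhds
  obtain ⟨r, hr1, hr2, hr3⟩ := (h2.and (h3.and self_mem_nhdsWithin)).exists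
  have hr3' : ρ < r := hr3
  have hr0 : 0 < r := by linarith
  have hFr : 0 < FF r := FF_pos_of hr0 hr2 (by norm_num) FF_low.le
  obtain ⟨k₀, hk₀⟩ := level_lower hr0 (by norm_num at hr2; linarith) hFr
    (show 0 < min (r - ρ) (ε / 2) from lt_min (by linarith) (by positivity))
  refine ⟨k₀, fun k hk => ?_⟩
  have hkn : (0 : ℝ) ≤ k := Nat.cast_nonneg k
  obtain ⟨o, ho1, ho2⟩ := hk₀ k hk
  have h4 := (abs_le.1 ho1).1
  have h5 : min (r - ρ) (ε / 2) * k ≤ (r - ρ) * k :=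
    mul_le_mul_of_nonneg_right (min_le_left _ _) hkn
  have h6 : ρ * k ≤ o := by linarith
  have hsub : Lv k o ⊆ Small k (Real.log 2 - ρ * Real.log 3) := by
    rintro n ⟨hn1, hn2, hn3⟩
    refine ⟨hn2, ?_⟩
    obtain ⟨hs1, hs2⟩ := log_size hn1 hn2
    rw [hn3] at hs1
    have h7 : ρ * k * Real.log 3 ≤ o * Real.log 3 := mul_le_mul_of_nonneg_right h6 hl3.le
    linarith
  have hfin : (Small k (Real.log 2 - ρ * Real.log 3)).Finite :=
    (Lev_finite k).subset fun n hn => hn.1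
  have h8 : ((Lv k o).ncard : ℝ) ≤ ((Small k (Real.log 2 - ρ * Real.log 3)).ncard : ℝ) := by
    exact_mod_cast Set.ncard_le_ncard hsub hfin
  refine le_trans (Real.exp_le_exp.2 ?_) (ho2.trans h8)
  apply mul_le_mul_of_nonneg_right _ hkn
  have := min_le_right (r - ρ) (ε / 2)
  linarith


/-- the level sets -/
theorem main_levels (hG : S_GEN) :
    (∀ t : ℝ, Real.log (4 / 3) / 2 ≤ t → t ≤ Real.log (16 / 3) / 4 → ∀ ε : ℝ, 0 < ε →
      ∃ k₀ : ℕ, ∀ k : ℕ, k₀ ≤ k →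
        Real.exp ((t - rate t - ε) * k) ≤ ((Small k t).ncard : ℝ) ∧
        ((Small k t).ncard : ℝ) ≤ Real.exp ((t - rate t + ε) * k)) ∧
    (∀ t : ℝ, Real.log (16 / 3) / 4 ≤ t → t < Real.log 2 → ∀ ε : ℝ, 0 < ε →
      ∃ k₀ : ℕ, ∀ k : ℕ, k₀ ≤ k →
        Real.exp ((t - rate t - ε) * k) ≤ ((Large k t).ncard : ℝ) ∧
        ((Large k t).ncard : ℝ) ≤ Real.exp ((t - rate t + ε) * k)) := by
  refine ⟨?_, Pool.Agent.Y966.LD.main_levels.2⟩
  have hl3 : 0 < Real.log 3 := Real.log_pos (by norm_num)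
  have e16 : Real.log (16 / 3) = 4 * Real.log 2 - Real.log 3 := by
    rw [Real.log_div (by norm_num) (by norm_num), show (16 : ℝ) = 2 ^ 4 by norm_num, Real.log_pow]
    norm_num
  have key : ∀ t : ℝ, ∃ ρ : ℝ, t = Real.log 2 - ρ * Real.log 3 := by
    intro t
    refine ⟨(Real.log 2 - t) / Real.log 3, ?_⟩
    field_simp
    ring
  have key2 : ∀ ρ : ℝ, 0 < ρ → ρ < 1 → (Real.log 2 - ρ * Real.log 3) -
      rate (Real.log 2 - ρ * Real.log 3) = FF ρ := by
    intro ρ h0 h1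
    rw [rate_eq h0 h1]
    unfold FF
    ring
  intro t h1 h2 ε hε
  obtain ⟨ρ, rfl⟩ := key t
  have hρ1 : ρ ≤ 1 / 2 := by
    rw [log43] at h1
    have : ρ * Real.log 3 ≤ 1 / 2 * Real.log 3 := by linarith
    exact le_of_mul_le_mul_right this hl3
  have hρ0 : 1 / 4 ≤ ρ := by
    rw [e16] at h2
    have : 1 / 4 * Real.log 3 ≤ ρ * Real.log 3 := by linarith
    exact le_of_mul_le_mul_right this hl3
  rw [key2 ρ (by linarith) (by linarith)]
  obtain ⟨k₁, hk₁⟩ := small_lower hρ0 hρ1 hε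
  obtain ⟨k₂, hk₂⟩ := small_upper hG hρ0 hρ1 hε
  exact ⟨max k₁ k₂, fun k hk => ⟨hk₁ k ((le_max_left _ _).trans hk),
    hk₂ k ((le_max_right _ _).trans hk)⟩⟩

end Pool.Agent.N685.FT
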