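import Pool.Agent.N685.FT.Stm
import Pool.Agent.N685.WB.Stm

/-! Project FT: the sup law for the truncated weights from the project WB. -/

set_option autoImplicit false
set_option linter.unusedVariables false

namespace Pool.Agent.N685.FT

open Finset Pool.Agent.H320R2.PD Pool.Agent.H377R2.NK

theorem sg_tt_pos {z : ℝ} (h0 : 0 < z) (h1 : z < 1) : 0 < tt z := by
  unfold tt
  have : 0 < 1 - z := by linarith
  positivity

theorem sg_wt_pos {z : ℝ} (h0 : 0 < z) (h1 : z < 1) (w : List ℕ) : 0 < wt z w := by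
  have := sg_tt_pos h0 h1
  unfold wt
  positivity

theorem sg_sum_FW_wt {z : ℝ} (h0 : 0 < z) (h1 : z < 1) (A n : ℕ) :
    ∑ w ∈ FW A n, wt z w ≤ (3 : ℝ) ^ n := by
  have ht := sg_tt_pos h0 h1
  have e1 : ∀ A : ℕ, ∑ e ∈ Icc 1 A, z ^ e ≤ z / (1 - z) := fun A => sum_Icc_pow_le A h0.le h1
  have e2 : ∑ w ∈ FW A n, wt z w = (tt z * ∑ e ∈ Icc 1 A, z ^ e) ^ n := by
    rw [mul_pow, ← Pool.Agent.H320R2.PD.sum_pow, mul_sum]
    refine sum_congr rfl fun w hw => ?_
    unfold wt
    rw [(mem_FW.1 hw).1]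
  rw [e2]
  have h3 : 0 ≤ ∑ e ∈ Icc 1 A, z ^ e := sum_nonneg fun e _ => by positivity
  apply pow_le_pow_left₀ (by positivity)
  calc tt z * ∑ e ∈ Icc 1 A, z ^ e ≤ tt z * (z / (1 - z)) :=
        mul_le_mul_of_nonneg_left (e1 A) ht.le
    _ = 3 := by
        unfold tt
        have : (1 - z) ≠ 0 := by linarith
        field_simp

/-- the weights of the blocks -/
noncomputable def sg_alph (z : ℝ) (h0 : 0 < z) (h1 : z < 1) (b : ℕ) (hb : 1 ≤ b) : WB.Alph 3 where
  b := b
  om := fun u => min 1 (wt z u)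
  th := tt z
  z := z
  hb := hb
  hth := sg_tt_pos h0 h1
  hz := h0
  hz1 := h1
  pos := fun u => lt_min one_pos (sg_wt_pos h0 h1 u)
  le1 := fun u => min_le_left _ _
  dom := fun u hu => by
    refine (min_le_right _ _).trans (le_of_eq ?_)
    unfold wt
    rw [hu]
  tot := fun A => by
    refine (sum_le_sum fun u _ => min_le_right _ _).trans ?_
    exact_mod_cast sg_sum_FW_wt h0 h1 A b

theorem sg_twn_eq {z : ℝ} (h0 : 0 < z) (h1 : z < 1) {b : ℕ} (hb : 1 ≤ b) (n : ℕ) (w : List ℕ)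
    (hw : w.length = b * n) : twn z b n w = WB.zwn (sg_alph z h0 h1 b hb) n w := by
  induction n generalizing w with
  | zero =>
    have : w = [] := List.length_eq_zero_iff.1 (by simpa using hw)
    subst this
    simp [twn, WB.zwn, wt]
  | succ n ih =>
    show min 1 (wt z (w.take b)) * twn z b n (w.drop b) =
      min 1 (wt z (w.take b)) * WB.zwn (sg_alph z h0 h1 b hb) n (w.drop b)
    rw [ih]
    rw [List.length_drop, hw, mul_add]
    omega

theorem sg_exists_cap (S : Finset (List ℕ)) : ∃ A : ℕ, ∀ w ∈ S, ∀ e ∈ w, e ≤ A := by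
  classical
  refine ⟨S.sup List.sum, fun w hw e he => ?_⟩
  exact (List.single_le_sum (fun _ _ => Nat.zero_le _) e he).trans
    (Finset.le_sup (f := List.sum) hw)

theorem t_G (hB : S_BAS) (hU : WB.S_UP) : S_G := by
  intro z h0 h1 b hb ε hε
  obtain ⟨C, hC, hbd⟩ := hU 3 (Or.inl rfl) (sg_alph z h0 h1 b hb) ε hε
  refine ⟨C, hC, fun n x S hS => ?_⟩
  obtain ⟨A, hA⟩ := sg_exists_cap S
  refine le_trans ?_ (hbd A n x)
  unfold WB.DB
  have hsub : S ⊆ VW 3 A ((sg_alph z h0 h1 b hb).b * n) x := by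
    intro w hw
    have h2 := (hB x w).1.1 (hS w hw).2
    rw [mem_VW]
    have hl : w.length = b * n := (hS w hw).1
    refine ⟨hl, fun e he => ⟨h2.1 e he, hA w hw e he⟩, ?_⟩
    have h3 := h2.2
    rw [hl] at h3
    exact_mod_cast h3
  refine le_trans (le_of_eq ?_) (sum_le_sum_of_subset_of_nonneg hsub
    (fun w _ _ => WB.zw_nonneg w))
  refine sum_congr rfl fun w hw => ?_
  rw [sg_twn_eq h0 h1 hb n w (hS w hw).1]
  exact (WB.zw_of_length (W := sg_alph z h0 h1 b hb) (hS w hw).1).symm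

end Pool.Agent.N685.FT
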