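import Pool.Agent.H377R2.NK.Basic

/-!
PROJECT FT (helper685), MP_f7abf1_nt: the large deviation law for the small total stopping times of the
`3x+1` map.  Definitions and statements of the combinatorial part.

Words are lists of letters `e ≥ 1`; a letter leads from `x` to `y` with `3 y + 1 = 2 ^ e x`.  A word of
weight `wt z w = tt z ^ length * z ^ sum`, where `∑_{e ≥ 1} tt z * z ^ e = 3`.  The aim is `S_GEN`: for
`1/2 < z < 1` the total weight of the words of length `N` from `a ≥ 1` whose points are all larger than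
`a` is at most `C exp (ε N)`, uniformly in `a`.
-/

set_option autoImplicit false

namespace Pool.Agent.N685.FT

open Finset Pool.Agent.H377R2.NK

/-- one letter: from `x` to `y` with `3 y + 1 = 2 ^ e x` -/
def st (e : ℕ) (x : ℤ) : ℤ := (2 ^ e * x - 1) / 3

/-- the word is valid at `x`, with letters `≥ 1` -/
def ok : ℤ → List ℕ → Prop
  | _, [] => True
  | x, e :: w => 1 ≤ e ∧ (3 : ℤ) ∣ 2 ^ e * x - 1 ∧ ok (st e x) w

/-- the endpoint of the word from `x` -/
def fin : ℤ → List ℕ → ℤ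
  | x, [] => x
  | x, e :: w => fin (st e x) w

/-- all points of the path from `x`, after the start, are larger than `c` -/
def above (c : ℤ) : ℤ → List ℕ → Prop
  | _, [] => True
  | x, e :: w => c < st e x ∧ above c (st e x) w

/-- `∑_{e ≥ 1} tt z * z ^ e = 3` -/
noncomputable def tt (z : ℝ) : ℝ := 3 * (1 - z) / z

/-- the weight of a word -/
noncomputable def wt (z : ℝ) (w : List ℕ) : ℝ := tt z ^ w.length * z ^ w.sum

/-- the truncated weight: the weights of the first `n` blocks of `b` letters are replaced by their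
minimum with `1`; the weight of the rest is not changed -/
noncomputable def twn (z : ℝ) (b : ℕ) : ℕ → List ℕ → ℝ
  | 0, w => wt z w
  | n + 1, w => min 1 (wt z (w.take b)) * twn z b n (w.drop b)

/-- the truncated weight, for all the complete blocks -/
noncomputable def tw (z : ℝ) (b : ℕ) (w : List ℕ) : ℝ := twn z b (w.length / b) w

open scoped Classical in
/-- the number of the blocks of weight larger than `1` among the first `n` blocks of `b` letters -/
noncomputable def nbn (z : ℝ) (b : ℕ) : ℕ → List ℕ → ℕ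
  | 0, _ => 0
  | n + 1, w => (if 1 < wt z (w.take b) then 1 else 0) + nbn z b n (w.drop b)

/-- the number of the complete blocks of `b` letters of weight larger than `1` -/
noncomputable def nb (z : ℝ) (b : ℕ) (w : List ℕ) : ℕ := nbn z b (w.length / b) w

/-- a piece from `a`: the endpoint is larger than `a`, and it is the smallest point after `a` -/
def Piece (a : ℤ) (w : List ℕ) : Prop :=
  w ≠ [] ∧ ok a w ∧ a < fin a w ∧ ∀ i, 0 < i → i ≤ w.length → fin a w ≤ fin a (w.take i)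

/-- consecutive pieces from `a` -/
def Pieces : ℤ → List (List ℕ) → Prop
  | _, [] => True
  | a, u :: P => Piece a u ∧ Pieces (fin a u) P

/-- total length of the pieces of length at least `lo` and smaller than `hi` -/
def mass (lo hi : ℕ) (P : List (List ℕ)) : ℕ :=
  ((P.map List.length).filter (fun l => lo ≤ l ∧ l < hi)).sum

/-- decomposition of a word from `x` into stretches (arbitrary valid words) and pieces of length at
least `Λ`; the last argument is the number of the blocks of weight larger than `1` in the stretches -/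
inductive Dec (z : ℝ) (b Λ : ℕ) : ℤ → List ℕ → ℕ → Prop
  | stretch (x : ℤ) (w : List ℕ) : ok x w → Dec z b Λ x w (nb z b w)
  | cons (x : ℤ) (u v w : List ℕ) (β : ℕ) : ok x u → Λ ≤ v.length → 1 ≤ fin x u →
      Piece (fin x u) v → Dec z b Λ (fin x (u ++ v)) w β →
      Dec z b Λ x (u ++ (v ++ w)) (nb z b u + β)

/-! ### Statements -/

/-- BAS: the relation with the notions of the library -/
def S_BAS : Prop := ∀ (x : ℤ) (w : List ℕ),
  (ok x w ↔ (∀ e ∈ w, 1 ≤ e) ∧ (3 : ℤ) ^ w.length ∣ 2 ^ w.sum * x - Wp 3 w) ∧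
    (ok x w → fin x w = en 3 w x)

/-- G: the sup law for the truncated weights (the analytic part of the project) -/
def S_G : Prop := ∀ z : ℝ, 0 < z → z < 1 → ∀ b : ℕ, 1 ≤ b → ∀ ε : ℝ, 0 < ε → ∃ C : ℝ, 0 < C ∧
  ∀ (n : ℕ) (x : ℤ) (S : Finset (List ℕ)), (∀ w ∈ S, w.length = b * n ∧ ok x w) →
    ∑ w ∈ S, twn z b n w ≤ C * Real.exp (ε * n)

/-- GS: the same for words of any length -/
def S_GS : Prop := ∀ z : ℝ, 0 < z → z < 1 → ∀ b : ℕ, 1 ≤ b → ∀ ε : ℝ, 0 < ε → ∃ C : ℝ, 0 < C ∧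
  ∀ (m : ℕ) (x : ℤ) (S : Finset (List ℕ)), (∀ w ∈ S, w.length = m ∧ ok x w) →
    ∑ w ∈ S, tw z b w ≤ C * Real.exp (ε * m)

/-- WT: the weight is at most the truncated weight times `3 ^ b` for each heavy block -/
def S_WT : Prop := ∀ z : ℝ, 0 < z → z < 1 → ∀ b : ℕ, 1 ≤ b → ∀ w : List ℕ, (∀ e ∈ w, 1 ≤ e) →
  wt z w ≤ tw z b w * 3 ^ (b * nb z b w)

/-- PC: the number of the pieces from `a` of given length and sum -/
def S_PC : Prop := ∀ (a : ℤ) (l s : ℕ) (S : Finset (List ℕ)), 1 ≤ a → 1 ≤ l →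
  (∀ w ∈ S, w.length = l ∧ w.sum = s ∧ Piece a w) → S.card ≤ 3 * l

/-- PW: the total weight of the pieces of length `l` from `a` -/
def S_PW : Prop := ∀ z : ℝ, 1 / 2 < z → z < 1 → ∃ c C : ℝ, 0 < c ∧ 0 < C ∧
  ∀ (l : ℕ) (a : ℤ) (S : Finset (List ℕ)), 1 ≤ l → 1 ≤ a → (∀ w ∈ S, w.length = l ∧ Piece a w) →
    ∑ w ∈ S, wt z w ≤ C * Real.exp (-(c * l))

/-- REC: decomposition into pieces (at the records: the last times of the smallest values) -/
def S_REC : Prop := ∀ (a : ℤ) (w : List ℕ), 1 ≤ a → ok a w → above a a w →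
  ∃ P : List (List ℕ), P.flatten = w ∧ Pieces a P

/-- BAD: the blocks of weight larger than one meet long pieces -/
def S_BAD : Prop := ∀ z : ℝ, 1 / 2 < z → z < 1 → ∃ c : ℝ, 0 < c ∧ c ≤ 1 ∧
  ∀ (b : ℕ) (a : ℤ) (P : List (List ℕ)), 1 ≤ b → 1 ≤ a → Pieces a P →
    ((b * nb z b P.flatten : ℕ) : ℝ) ≤ (1 + 1 / c) * mass ⌈c * b⌉₊ (P.flatten.length + 1) P

/-- DCM: decomposition into stretches and long pieces -/
def S_DCM : Prop := ∀ z : ℝ, 1 / 2 < z → z < 1 → ∃ c : ℝ, 0 < c ∧ c ≤ 1 ∧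
  ∀ (b Λ : ℕ) (a : ℤ) (P : List (List ℕ)), 1 ≤ b → 1 ≤ a → Pieces a P →
    ∃ β : ℕ, Dec z b Λ a P.flatten β ∧
      ((b * β : ℕ) : ℝ) ≤ (1 + 1 / c) * mass ⌈c * b⌉₊ Λ P

/-- REN: the renewal bound -/
def S_REN : Prop := ∀ z : ℝ, 1 / 2 < z → z < 1 → ∀ b : ℕ, 1 ≤ b → ∀ ε : ℝ, 0 < ε →
  ∃ (C : ℝ) (Λ₀ : ℕ), 0 < C ∧ ∀ Λ : ℕ, Λ₀ ≤ Λ → ∀ (N : ℕ) (x : ℤ) (S : Finset (List ℕ))
    (β : List ℕ → ℕ), (∀ w ∈ S, w.length = N ∧ Dec z b Λ x w (β w)) →
      ∑ w ∈ S, wt z w / 3 ^ (b * β w) ≤ C * Real.exp (ε * N)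

/-- GEN: the main bound -/
def S_GEN : Prop := ∀ z : ℝ, 1 / 2 < z → z < 1 → ∀ ε : ℝ, 0 < ε → ∃ C : ℝ, 0 < C ∧
  ∀ (N : ℕ) (a : ℤ) (S : Finset (List ℕ)), 1 ≤ a →
    (∀ w ∈ S, w.length = N ∧ ok a w ∧ above a a w) → ∑ w ∈ S, wt z w ≤ C * Real.exp (ε * N)

end Pool.Agent.N685.FT
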